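import Pool.Agent.Helper40.MR.Defs

set_option autoImplicit false

/-!
MP_1f31dd_nt (least prime factors): the conjecture of Erdos, Eggleton and Selfridge holds for almost
all integers.  Definitions and statements of the modules of the project AA.

Target (FIN): for every `ε > 0` all but `o(N)` of the integers `n ≤ N` have a composite `m < n` with
`m + p(m) ≥ n + (1 - ε) sqrt n`.

Every row proves one `ST_X`; the rows and theorems that it may use are named in its doc string and are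
hypotheses of its theorem, e.g. `theorem st_FL (hZ : ST_Z) (hRS : ST_RS) ... : ST_FL`.
Rows may also use the theorems of the project MR (`Pool.Agent.Helper40.MR.All`, in particular
`all_VDC`, `all_SM`, `all_PL`, `st_MV`, `st_HM2 all_SM st_DUAL st_SEL`, `st_SEL`, `st_BT st_SEL`,
`h4_F_int`, `h4_F_sq`, `h4_plancherel`, `h4_F_fourier`, `h4_log_conv`, `h4_sum_vM`).
-/

open Finset MeasureTheory
open scoped BigOperators Nat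

namespace Pool.Agent.Helper99.AA

open Pool.Agent.Helper40.MR

/-! ### Definitions -/

/-- `n` has no prime factor `≤ y` (for `y ≥ 2` this excludes `n = 0`; it always holds for `n = 1`). -/
def Ro (y n : ℕ) : Prop := ∀ p : ℕ, p.Prime → p ∣ n → y < p

open Classical in
/-- Indicator of the `y`-rough numbers. -/
noncomputable def ro (y n : ℕ) : ℂ := if Ro y n then 1 else 0

/-- Twisted indicator `n ↦ 1_{rough}(n) n ^ (-i t)`; it satisfies `CM` for `y ≥ 2`. -/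
noncomputable def rt (y : ℕ) (t : ℝ) (n : ℕ) : ℂ := ro y n * nit n t

/-- `∏_{p ≤ y} (1 - 1 / p)`. -/
noncomputable def Vy (y : ℕ) : ℝ := ∏ p ∈ (Finset.Icc 1 y).filter Nat.Prime, (1 - 1 / (p : ℝ))

/-- `N ^ (1 - i t) / (1 - i t)`. -/
noncomputable def Mt (N t : ℝ) : ℂ := (N : ℂ) * xiu N (-t) / (1 - (t : ℂ) * Complex.I)

/-- Sums of `(log n) ^ k n ^ (-i t)` over the rough numbers `n ≤ N`. -/
noncomputable def Ph (k y : ℕ) (N t : ℝ) : ℂ := Sg (fun n => (Real.log n : ℂ) ^ k * rt y t n) N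

/-- Error term of the fundamental lemma. -/
noncomputable def Dd (y : ℕ) (N t : ℝ) : ℂ := Ph 0 y N t - (Vy y : ℂ) * Mt N t

/-- Coefficients `Λ(n) n ^ (-i t)` on the rough numbers. -/
noncomputable def rL (y : ℕ) (t : ℝ) (n : ℕ) : ℂ := rt y t n * (ArithmeticFunction.vonMangoldt n : ℂ)

/-- Sums of `Λ(n) n ^ (-i t)` over the rough numbers `n ≤ v`. -/
noncomputable def Sv (y : ℕ) (t v : ℝ) : ℂ := Sg (rL y t) v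

/-! ### Block A: twisted sums over rough numbers (fundamental lemma) -/

/-- Z (from `all_VDC`): twisted sums over integers.
Proof. `|t| ≤ M^(1/2)`: Abel summation, the error is `≤ 2 + |t| (1 + log M)`.
`|t| > M^(1/2)`: the main term is `≤ M / |t| ≤ M^(1/2)`; the `n ≤ M^(1/2)` are trivial, the rest is cut
into dyadic blocks `(M', 2M']` with `M' ≥ M^(1/2) / 2 ≥ M^(1/3)`, `ST_VDC` with `A' = 3 A`, `β = 0`,
`u = - t` (note `nit n t = xiu n (-t)`). Small `M` by the constant `C`. -/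
def ST_Z : Prop := ∀ A : ℝ, 1 ≤ A → ∃ c : ℝ, 0 < c ∧ c ≤ 1 / 2 ∧ ∃ C : ℝ, 0 < C ∧ ∀ t M : ℝ,
  1 ≤ M → 2 + |t| ≤ M ^ A → ‖Sg (fun n => nit n t) M - Mt M t‖ ≤ C * M ^ (1 - c)

/-- RS (from `st_SEL`): upper bound for the number of rough numbers.
Proof. `D = y^(1/3)` (if `≥ 2`), `1_{rough}(n) ≤ (∑_{d ∣ n} ρ d)^2`, total `≤ N / log D + D^2`. -/
def ST_RS : Prop := ∃ C : ℝ, 0 < C ∧ ∀ (y : ℕ) (N : ℝ), 2 ≤ y → (y : ℝ) ≤ N →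
  ∑ n ∈ Icc 1 ⌊N⌋₊, ‖ro y n‖ ≤ C * (N / Real.log y)

/-- VM (from `Pool.Agent.Helper71.CP.M2`, i.e. the second theorem of Mertens): Mertens' product. -/
def ST_VM : Prop := ∃ C : ℝ, 0 < C ∧ ∀ y : ℕ, 2 ≤ y → 0 ≤ Vy y ∧ Vy y ≤ C / Real.log y

/-- MI (from the second theorem of Mertens, `Pool.Agent.Helper71.CP.M2`): the primes in
`(y^(1-κ), y]`. -/
def ST_MI : Prop := ∀ κ : ℝ, 0 < κ → κ ≤ 1 / 4 → ∃ y₀ : ℕ, ∀ y : ℕ, y₀ ≤ y →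
  ∑ p ∈ (Ioc ⌊(y : ℝ) ^ (1 - κ)⌋₊ y).filter Nat.Prime, 1 / (p : ℝ) ≤ 4 * κ

/-- BB: Buchstab's identity for `Dd`.
Proof. A `w`-rough number which is not `y`-rough is `p m` with `p` its least prime factor,
`w < p ≤ y`, and `m` is `(p-1)`-rough. `Vy (p-1) - Vy p = Vy (p-1) / p`, telescoping over primes, and
`nit p t * Mt (N / p) t = Mt N t / p`. -/
def ST_BB : Prop := ∀ (w y : ℕ) (N t : ℝ), 2 ≤ w → w ≤ y → 0 < N →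
  Dd y N t = Dd w N t - ∑ p ∈ (Ioc w y).filter Nat.Prime, nit p t * Dd (p - 1) (N / p) t

/-- LE: Legendre's identity (as an inequality).
Proof. `1_{rough}(n) = ∑_{d ∣ (n, primorial y)} μ(d)`, `Vy y = ∑_{d ∣ primorial y} μ(d) / d`,
`nit d t * Mt (N / d) t = Mt N t / d`. -/
def ST_LE : Prop := ∀ (y : ℕ) (N t : ℝ), 2 ≤ y → 0 < N →
  ‖Dd y N t‖ ≤ ∑ d ∈ (primorial y).divisors, ‖Sg (fun n => nit n t) (N / d) - Mt (N / d) t‖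

/-- FL (from Z, RS, VM, MI, BB, LE): fundamental lemma with a constant `C` independent of `A`.
Proof. Fix `A`, let `c'` be the constant of `ST_Z (2 A)`, `κ = 1 / 40`, `s₀ = 32`. Claim, by strong
induction on `y`, for all `z ≥ max (y, z₀)` with `2 + |t| ≤ z^A` and all `N ≥ z`:
`‖Dd y N t‖ ≤ C (N / log y) exp (- log (N/z) / log y)` for all `y ≥ y₀`, where `1 / log y₀ ≤ c' / 2`.
(1) `L = log (N/z) ≤ s₀ log y`: trivial bound `‖Dd‖ ≤ C₁ N / log y` from RS, VM (`‖Mt N t‖ ≤ N`).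
(2) `y₀ ≤ y ≤ y₁` (`y₁` a constant depending on `A`): LE and Z with `2 A` for `M = N / d ≥ z^(1/2)`; the
bound `2^(y₁) C_Z N^(1-c')` is small enough if `z₀` is large.
(3) `y > y₁`, `L > s₀ log y`: BB with `w = ⌊y^(1-κ)⌋`; `(1-2κ) log y ≤ log w ≤ (1-κ) log y`.
`|Dd w| ≤ C (N / ((1-2κ) log y)) e^(-L/log y) e^(-κ s₀)`, and for `w < p ≤ y` (so `p - 1 ≥ w`,
`N / p ≥ z`): `|Dd (p-1) (N/p)| ≤ C (N / (p (1-2κ) log y)) e^(1 - L / log y)`; by MI the sum over `p` has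
the factor `e 4κ / (1-2κ) < 0.29`, and `e^(-κ s₀) / (1-2κ) < 0.48`. Finally take `z = y`. -/
def ST_FL : Prop := ∃ C : ℝ, 0 < C ∧ ∀ A : ℝ, 1 ≤ A → ∃ y₀ : ℕ, 2 ≤ y₀ ∧
  ∀ (y : ℕ) (t N : ℝ), y₀ ≤ y → 2 + |t| ≤ (y : ℝ) ^ A → (y : ℝ) ≤ N →
  ‖Dd y N t‖ ≤ C * (N / Real.log y * Real.exp (-(Real.log N / Real.log y)))

/-- PS (from FL, RS, VM): partial summation. For `k ≥ 1` and `N < y` the sum is `0` (only `n = 1`).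
Proof. `k = 0`: FL, VM and `‖Mt N t‖ ≤ N / |t|`. `k ≥ 1`:
`Ph k = (log N)^k Ph 0 - ∫_1^N k (log u)^(k-1) / u Ph 0 y u t du`, with `Ph 0 = 1` on `[1, y]`, the case
`k = 0` on `[y, N]`, and `∫_y^N (y/u)^(1/log y) du ≤ 2 N (y/N)^(1/log y)`. -/
def ST_PS : Prop := ∃ C : ℝ, 0 < C ∧ ∀ A : ℝ, 1 ≤ A → ∃ y₀ : ℕ, 2 ≤ y₀ ∧
  ∀ (k y : ℕ) (t N : ℝ), k ≤ 2 → y₀ ≤ y → 1 ≤ |t| → 2 + |t| ≤ (y : ℝ) ^ A → (y : ℝ) ≤ N →
  ‖Ph k y N t‖ ≤ C * (Real.log N ^ k * (N / Real.log y) *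
    (1 / |t| + Real.exp (-(Real.log N / Real.log y))))

/-! ### Block B: the Dirichlet series of the rough numbers -/

/-- LU (from PS): upper bounds. `Gv g η τ = LSeries g (1 + η + i τ)`.
Proof. `LSeries_eq_mul_integral` for `n ↦ ro y n * nit n τ` at `1 + η`: the integral of
`Ph k y u τ u^(-2-η)`; on `[1, y]` it is `Ph 0 = 1`, `Ph 1 = 0`; on `[y, ∞)` PS, with
`∫_y^∞ u^(-1-η) du ≤ 1/η`, `∫_y^∞ u^(-1-η) (y/u)^(1/log y) du ≤ log y`, and the same with a factor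
`log u`: `≤ 1/η^2` and `≤ 2 (log y)^2`. -/
def ST_LU : Prop := ∃ C : ℝ, 0 < C ∧ ∀ A : ℝ, 1 ≤ A → ∃ y₀ : ℕ, 2 ≤ y₀ ∧
  ∀ (y : ℕ) (η τ : ℝ), y₀ ≤ y → 0 < η → η ≤ 1 → 1 ≤ |τ| → 2 + |τ| ≤ (y : ℝ) ^ A →
  1 ≤ |τ| * (η * Real.log y) ^ 2 →
  ‖Gv (ro y) η τ‖ ≤ C ∧ ‖Gv (fun n => ro y n * (Real.log n : ℂ)) η τ‖ ≤ C * Real.log y

/-- LR (from RS): the real point. -/
def ST_LR : Prop := ∃ C : ℝ, 0 < C ∧ ∀ (y : ℕ) (η : ℝ), 2 ≤ y → 0 < η → η ≤ 1 →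
  ‖Gv (ro y) η 0‖ ≤ C * (1 + 1 / (η * Real.log y))

/-- LL (from LU, LR): lower bound.
Proof. `DirichletCharacter.norm_LSeries_product_ge_one` for the trivial character modulo `primorial y`
(its values are `ro y n`) at `1 + λ / log y`: `‖G(λ/log y, τ)‖^4 ≥ (2C/λ)^(-3) (2C)^(-1)`. The
derivative of `η ↦ Gv (ro y) η τ` is `- Gv (ro y * log) η τ`, of norm `≤ C log y`, so going down from
`λ / log y` to `η` costs `≤ C λ`, which is less than half of `λ^(3/4) / (2 C)` for small `λ`. -/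
def ST_LL : Prop := ∃ c : ℝ, 0 < c ∧ ∃ l : ℝ, 0 < l ∧ ∀ A : ℝ, 1 ≤ A → ∃ y₀ : ℕ, 2 ≤ y₀ ∧
  ∀ (y : ℕ) (η τ : ℝ), y₀ ≤ y → 0 < η → η * Real.log y ≤ l → 1 ≤ |τ| → 2 + 2 * |τ| ≤ (y : ℝ) ^ A →
  1 ≤ |τ| * (η * Real.log y) ^ 2 → c ≤ ‖Gv (ro y) η τ‖

/-! ### Block C: mean squares -/

/-- TA (from `h4_F_sq`, `h4_plancherel`, `h4_F_fourier`): tail of the mean square.
Proof. For every real `w`, `∫ ‖LSeries a (1 + η + 2πi(ξ+w)) / (1 + η + 2πiξ)‖^2 dξ ≤ K^2 / (2η)`: this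
is Plancherel for `n ↦ a n * nit n (2πw)`. Hence the mean square of `LSeries a` over every interval of
length `1` is `≤ C / η`; sum over the intervals with weights `1 / k^2`. -/
def ST_TA : Prop := ∃ C : ℝ, 0 < C ∧ ∀ (a : ℕ → ℂ) (η U : ℝ),
  (∀ n, ‖a n‖ ≤ ArithmeticFunction.vonMangoldt n) → 0 < η → η ≤ 1 → 1 ≤ U →
  ∫ ξ in {ξ : ℝ | U < |2 * Real.pi * ξ|},
    ‖LSeries a (((1 + η : ℝ) : ℂ) + ((2 * Real.pi * ξ : ℝ) : ℂ) * Complex.I) /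
      (((1 + η : ℝ) : ℂ) + ((2 * Real.pi * ξ : ℝ) : ℂ) * Complex.I)‖ ^ 2 ≤ C / (η * U)

/-- MS (from PS, LL, TA): mean value of `Sv` over the scales.
Proof. `η = 1 / log x`, `g = rt y t` (`CM`), `G = LSeries (g Λ) = LSeries (g log) / LSeries g`
(`h4_log_conv`). For `|2πξ| ≤ U`, `‖LSeries g (1 + η + 2πiξ)‖ ≥ c` by LL (`τ = t + 2πξ`), so
`∫_{|2πξ| ≤ U} ‖G / s‖^2 ≤ c^(-2) ∫ ‖LSeries (g log) / s‖^2 = c^(-2) ∫ ‖Ph 1 y e^v t‖^2 e^(-2(1+η)v) dv`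
(Plancherel), which by PS is `≤ C ((log x)^3 / (t^2 (log y)^2) + log y)`; the tail is TA. So
`∫ ‖Sv y t e^v‖^2 e^(-2(1+η)v) dv ≤ C log x ((log x / log y)^2 / t^2 + log y / log x + 1 / U)`, and
finish by Cauchy-Schwarz on `[0, log x]`, where `e^(2ηv) ≤ e^2`. -/
def ST_MS : Prop := ∃ C : ℝ, 0 < C ∧ ∃ l : ℝ, 0 < l ∧ ∀ A U : ℝ, 1 ≤ A → 1 ≤ U → ∃ y₀ : ℕ, 2 ≤ y₀ ∧
  ∀ (y : ℕ) (x t : ℝ), y₀ ≤ y → Real.log y ≤ l * Real.log x → 1 ≤ Real.log x →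
  U + (Real.log x / Real.log y) ^ 2 ≤ |t| → 2 + 2 * (|t| + U) ≤ (y : ℝ) ^ A →
  ∫ v in (0 : ℝ)..Real.log x, ‖Sv y t (Real.exp v)‖ * Real.exp (-v) ≤
    C * Real.log x * Real.sqrt ((Real.log x / Real.log y) ^ 2 / t ^ 2 +
      Real.log y / Real.log x + 1 / U)

/-! ### Block D: the pointwise bound -/

/-- SI: Selberg's identity `Λ log + Λ * Λ = μ * log^2`, multiplied by the completely multiplicative
`rt y t` and summed; `∑_{n ≤ x} Λ(n) log n g(n) = log x Sv(x) - ∫_1^x Sv(v) / v dv` and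
`‖Sv(v)‖ ≤ (log 4 + 4) v`. -/
def ST_SI : Prop := ∀ (y : ℕ) (x t : ℝ), 2 ≤ y → 1 ≤ x →
  Real.log x * ‖Sv y t x‖ ≤
    ∑ d ∈ Icc 1 ⌊x⌋₊, ArithmeticFunction.vonMangoldt d * ‖Sv y t (x / d)‖ +
    ∑ d ∈ Icc 1 ⌊x⌋₊, ‖ro y d‖ * ‖Ph 2 y (x / d) t‖ + 6 * x

/-- HS (from SI, PS, RS).
Proof. In the second sum only `d = 1` and rough `d` with `y < d ≤ x / y` contribute; PS for
`Ph 2 y (x/d) t`; blocks `d ∈ (x e^(-j-1), x e^(-j)]` contain `≤ C x e^(-j) / log y` rough numbers (RS);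
`∑_j (j+1)^2 e^(-j/log y) ≤ C (log y)^3`, `A₁^2 e^(-A₁) ≤ 1` for `A₁ = log x / log y`. -/
def ST_HS : Prop := ∃ C : ℝ, 0 < C ∧ ∀ A : ℝ, 1 ≤ A → ∃ y₀ : ℕ, 2 ≤ y₀ ∧
  ∀ (y : ℕ) (x t : ℝ), y₀ ≤ y → (y : ℝ) ^ 2 ≤ x → 1 ≤ |t| → 2 + |t| ≤ (y : ℝ) ^ A →
  Real.log x * ‖Sv y t x‖ ≤
    ∑ d ∈ Icc 1 ⌊x⌋₊, ArithmeticFunction.vonMangoldt d * ‖Sv y t (x / d)‖ +
    C * (x * Real.log x) * (Real.log y / Real.log x + (Real.log x / Real.log y) ^ 2 / |t|)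

/-- AV (from `st_BT st_SEL`): averaging over short blocks.
Proof. `D₀(h) < d ≤ x / y`: blocks `(D₀ q^k, D₀ q^(k+1)]`, `q = 1 + 1/h`: `∑ Λ ≤ C |block|` by
`ST_BT` (`y₀(h)`), and `‖Sg a (x/d) - Sg a (x/u)‖ ≤ C (x/d) / h` for `u` in the block of `d`, so the block
costs `C ∫_block ‖Sg a (x/u)‖ du + C |block| (x / (D₀ q^k)) / h`. `d > x / y`: `Sg a (x/d) = 0`.
`d ≤ D₀`: `∑ Λ(d) 6 x / d ≤ C x (1 + log D₀)`. Substitution `v = log (x/u)`. Compare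
`Pool.Agent.Helper7.MR.H2`. -/
def ST_AV : Prop := ∃ C : ℝ, 0 < C ∧ ∀ h : ℝ, 1 ≤ h → ∃ y₀ : ℕ, ∃ x₀ : ℝ,
  ∀ (y : ℕ) (x : ℝ) (a : ℕ → ℂ), y₀ ≤ y → x₀ ≤ x → (y : ℝ) ≤ x →
  (∀ n, ‖a n‖ ≤ ArithmeticFunction.vonMangoldt n) → (∀ n, n ≤ y → a n = 0) →
  ∑ d ∈ Icc 1 ⌊x⌋₊, ArithmeticFunction.vonMangoldt d * ‖Sg a (x / d)‖ ≤
    C * x * (∫ v in (0 : ℝ)..Real.log x, ‖Sg a (Real.exp v)‖ * Real.exp (-v)) +
    C * x * Real.log x / h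

/-- PT (from MS, HS, AV): the pointwise bound.
Proof. `A₁` large, `y = ⌊x^(1/A₁)⌋`, `U`, `h` large, then `T` large, then `x` large;
`‖Sv y t x‖ ≤ C x (sqrt (A₁^2/t^2 + 1/A₁ + 1/U) + 1/h + 1/A₁ + A₁^2/|t|)` up to the difference between
`A₁` and `log x / log y ≤ 2 A₁`; the prime powers of `p ≤ y` cost `≤ y log x`. -/
def ST_PT : Prop := ∀ A ε : ℝ, 1 ≤ A → 0 < ε → ∃ T : ℝ, 1 ≤ T ∧ ∃ x₀ : ℝ, ∀ x t : ℝ, x₀ ≤ x →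
  T ≤ |t| → |t| ≤ x ^ A →
  ‖Sg (fun n => (ArithmeticFunction.vonMangoldt n : ℂ) * nit n t) x‖ ≤ ε * x

/-- PP (from PT): the same for Dirichlet polynomials over primes.
Proof. Abel summation with `1 / (v log v)` on `(a, b]`; proper prime powers cost `≤ C M^(-1/2)`. -/
def ST_PP : Prop := ∀ A ε : ℝ, 1 ≤ A → 0 < ε → ∃ T : ℝ, 1 ≤ T ∧ ∃ M₀ : ℝ, ∀ M a b t : ℝ, M₀ ≤ M →
  M / 2 ≤ a → a ≤ b → b ≤ 2 * M → T ≤ |t| → |t| ≤ M ^ A →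
  ‖DP (PrI a b) (fun _ => 1) t‖ ≤ ε / Real.log M

/-! ### Block E: the prime number theorem -/

open scoped FourierTransform in
/-- TB (adapt the proof of `Pool.Agent.Helper40.Tauber.tauber_abs` in `Helper40/Tauber1.lean`, using
`limit_identity` after scaling by `K`): Tauberian theorem for slowly oscillating functions. -/
def ST_TB : Prop := ∀ (B : ℝ → ℂ) (K : ℝ) (G0 : ℝ → ℂ), AEStronglyMeasurable B volume →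
  (∀ u < 0, B u = 0) → (∀ u, ‖B u‖ ≤ K) →
  (∀ ε : ℝ, 0 < ε → ∃ δ : ℝ, 0 < δ ∧ ∃ U : ℝ, ∀ u v, U ≤ u → u ≤ v → v ≤ u + δ →
    ‖B v - B u‖ ≤ ε) →
  (∀ y, Filter.Tendsto (fun σ : ℝ => 𝓕 (fun u => B u * (Real.exp (-σ * u) : ℂ)) y)
    (nhdsWithin 0 (Set.Ioi 0)) (nhds (G0 y))) →
  (∀ R : ℝ, ∃ C : ℝ, ∀ σ ∈ Set.Ioc (0 : ℝ) 1, ∀ y, |y| ≤ R →
    ‖𝓕 (fun u => B u * (Real.exp (-σ * u) : ℂ)) y‖ ≤ C) →
  Filter.Tendsto B Filter.atTop (nhds 0)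

/-- PN (from TB, `st_BT st_SEL`): the prime number theorem for `ψ`.
Proof. `B u = (ψ(e^u) - e^u) e^(-u)` for `u ≥ 0`; slow oscillation by `ST_BT`; the Fourier transform is
`- ζ'/ζ(s) / s - 1 / (s - 1)` at `s = 1 + σ + 2πiy` (compare `h4_F_fourier` or
`Helper40.Tauber.fourier_Bf`), which is continuous on `re s ≥ 1`: see `Mathlib`,
`ArithmeticFunction.vonMangoldt.continuousOn_LFunctionResidueClassAux` with modulus `1`, or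
`riemannZeta_ne_zero_of_one_le_re`. -/
def ST_PN : Prop := ∀ ε : ℝ, 0 < ε → ∃ x₀ : ℝ, ∀ x : ℝ, x₀ ≤ x → |Chebyshev.psi x - x| ≤ ε * x

/-- PI (from PN): primes in short multiplicative intervals. -/
def ST_PI : Prop := ∀ δ : ℝ, 0 < δ → δ ≤ 1 → ∃ x₀ : ℝ, ∀ x : ℝ, x₀ ≤ x →
  δ * x / (2 * Real.log x) ≤ ((PrI x ((1 + δ) * x)).card : ℝ)

/-! ### Block F: almost all short intervals -/

/-- The larger prime. -/
noncomputable def Pa (η M : ℝ) : Finset ℕ := PrI (M * (1 + η)) (M * (1 + 2 * η))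

/-- The smaller prime. -/
noncomputable def Qa (η M : ℝ) : Finset ℕ := PrI (M * (1 - 3 * η)) (M * (1 + η))

open Classical in
/-- Number of pairs of primes with product in a short interval. -/
noncomputable def Wn (η M δ u : ℝ) : ℕ :=
  ((Pa η M ×ˢ Qa η M).filter
    (fun r : ℕ × ℕ => u < Real.log ((r.1 * r.2 : ℕ) : ℝ) ∧ Real.log ((r.1 * r.2 : ℕ) : ℝ) ≤ u + δ)).card

/-- Number of representations as a product of two primes. -/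
noncomputable def co (η M : ℝ) (n : ℕ) : ℂ :=
  (((Pa η M ×ˢ Qa η M).filter (fun r : ℕ × ℕ => r.1 * r.2 = n)).card : ℂ)

/-- LO (from PI): lower bound for long intervals.
Proof. For `p ∈ Pa` every prime `q ∈ (e^u / p, e^(u+δ₂) / p]` lies in `Qa`; PI with `δ = δ₂`,
`x = e^u / p`, and PI with `δ = η / 2`, `x = M (1 + η)` for the number of `p`. -/
def ST_LO : Prop := ∀ η δ₂ : ℝ, 0 < η → η ≤ 1 / 10 → 0 < δ₂ → δ₂ ≤ η / 4 → ∃ M₀ : ℝ,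
  ∀ M u : ℝ, M₀ ≤ M → M ^ 2 * (1 - η / 4) ≤ Real.exp u → Real.exp u ≤ M ^ 2 * (1 + η) →
  Real.exp u * δ₂ * η / (100 * Real.log M ^ 2) ≤ (Wn η M δ₂ u : ℝ)

/-- PLD (adapt `Pool.Agent.Helper24.MR.PLA`): Plancherel for the difference of two windows.
Proof. The function of `u` is `∑ (a n / n) ψ (log n - u)` with `ψ r = (1_{(0,δ]} r - (δ/δ₂)
1_{(0,δ₂]} r) e^r`; Plancherel; `|ψ^(t)| ≤ C min (δ, 1/(1+|t|))` and `≤ C δ δ₂ (1 + |t|)`. -/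
def ST_PLD : Prop := ∃ C : ℝ, 0 < C ∧ ∀ (s : Finset ℕ) (δ δ₂ : ℝ) (a : ℕ → ℂ),
  (∀ n ∈ s, 1 ≤ n) → 0 < δ → δ ≤ δ₂ → δ₂ ≤ 1 →
  ∫ u : ℝ, ‖∑ n ∈ s.filter (fun n : ℕ => u < Real.log n ∧ Real.log n ≤ u + δ), a n -
      ((δ / δ₂ : ℝ) : ℂ) * ∑ n ∈ s.filter (fun n : ℕ => u < Real.log n ∧ Real.log n ≤ u + δ₂), a n‖ ^ 2 *
      Real.exp (-(2 * u)) ≤
    C * ∫ t : ℝ, ‖DP s a t‖ ^ 2 *
      min (min (δ ^ 2) (1 / (1 + t ^ 2))) (δ ^ 2 * δ₂ ^ 2 * (1 + t ^ 2))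

/-- FA: factorization. -/
def ST_FA : Prop := ∀ η M t : ℝ, 0 < η → η ≤ 1 / 10 → 2 ≤ M →
  DP (Icc 1 ⌊4 * M ^ 2⌋₊) (co η M) t =
    DP (Pa η M) (fun _ => 1) t * DP (Qa η M) (fun _ => 1) t

/-- V1 (from PP, FA, `st_MV`, `ST_HM2`): the middle range.
Proof. `c` from `ST_HM2` with `A = 2`, `Y = M (1 + η)` for `Pa`; `α = c / 20`;
`U = {T ≤ |t| ≤ M (log M)^3, ‖DP Pa t‖ ≥ M^(-α)}` has measure `≤ M^(4α) ∫ ‖DP Pa‖^4 ≤ C M^(4α)` (`st_MV`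
for the square, length `≤ 4 M^2`, coefficients `≤ 2 / n`). On `U`: `sup ‖DP Qa‖^2 ≤ ε^2 / (log M)^2`
(PP with `A = 2`) times `∫_U ‖DP Pa‖^2 ≤ C / (log M)^2`. Off `U`: `M^(-2α) ∫ ‖DP Qa‖^2 ≤
C M^(-2α) (log M)^3`. -/
def ST_V1 : Prop := ∀ η ε : ℝ, 0 < η → η ≤ 1 / 10 → 0 < ε → ∃ T : ℝ, 1 ≤ T ∧ ∃ M₀ : ℝ,
  ∀ M : ℝ, M₀ ≤ M →
  ∫ t in {t : ℝ | T ≤ |t| ∧ |t| ≤ M * Real.log M ^ 3},
    ‖DP (Icc 1 ⌊4 * M ^ 2⌋₊) (co η M) t‖ ^ 2 ≤ ε / Real.log M ^ 4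

/-- V2 (from FA, `ST_HM2`, a Chebyshev bound for `∑ 1/q`): the low range. -/
def ST_V2 : Prop := ∃ C : ℝ, 0 < C ∧ ∀ η T : ℝ, 0 < η → η ≤ 1 / 10 → 1 ≤ T → ∃ M₀ : ℝ,
  ∀ M : ℝ, M₀ ≤ M →
  ∫ t in {t : ℝ | |t| ≤ T}, ‖DP (Icc 1 ⌊4 * M ^ 2⌋₊) (co η M) t‖ ^ 2 ≤ C / Real.log M ^ 4

/-- V3 (from `st_MV`, dyadic): the tail. Note `‖co η M n‖ ≤ 2` and `co η M n = 0` for `n < M^2 / 2`. -/
def ST_V3 : Prop := ∃ C : ℝ, 0 < C ∧ ∀ η : ℝ, 0 < η → η ≤ 1 / 10 → ∃ M₀ : ℝ, ∀ M : ℝ, M₀ ≤ M →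
  ∫ t in {t : ℝ | M * Real.log M ^ 3 < |t|},
    ‖DP (Icc 1 ⌊4 * M ^ 2⌋₊) (co η M) t‖ ^ 2 * (1 / (1 + t ^ 2)) ≤ C / (M ^ 2 * Real.log M ^ 6)

/-- VA (from V1, V2, V3): the variance. First `T` from V1 (with `ε/3`), then `δ₂` with
`C δ₂^2 (1 + T^2) ≤ ε / 3`, then `M` large. -/
def ST_VA : Prop := ∀ η c₀ ε : ℝ, 0 < η → η ≤ 1 / 10 → 0 < c₀ → 0 < ε →
  ∃ δ₂ : ℝ, 0 < δ₂ ∧ δ₂ ≤ η / 4 ∧ ∃ M₀ : ℝ, ∀ M : ℝ, M₀ ≤ M →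
  ∫ t : ℝ, ‖DP (Icc 1 ⌊4 * M ^ 2⌋₊) (co η M) t‖ ^ 2 *
      min (min ((c₀ / M) ^ 2) (1 / (1 + t ^ 2))) ((c₀ / M) ^ 2 * δ₂ ^ 2 * (1 + t ^ 2)) ≤
    ε * (c₀ / M) ^ 2 / Real.log M ^ 4

/-- BU (from LO, PLD, VA): the measure of the empty windows is small.
Proof. `∑_{n in window} co η M n = Wn η M δ u`; where `Wn η M (c₀/M) u = 0` the integrand of PLD is
`≥ (c₀/M)^2 (η / (100 (log M)^2))^2` by LO. -/
def ST_BU : Prop := ∀ η c₀ ε : ℝ, 0 < η → η ≤ 1 / 10 → 0 < c₀ → 0 < ε → ∃ M₀ : ℝ,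
  ∀ M : ℝ, M₀ ≤ M →
  volume {u : ℝ | M ^ 2 * (1 - η / 4) ≤ Real.exp u ∧ Real.exp u ≤ M ^ 2 * (1 + η) ∧
    Wn η M (c₀ / M) u = 0} ≤ ENNReal.ofReal ε

open Classical in
/-- BN (from BU): integers in `(X, (1+η) X]`.
Proof. `M = sqrt X`, `c₀ = η / 10`, `h = ⌈η M / 2⌉`. If `n` is bad, then `Wn η M (c₀/M) u = 0` for all
`u` with `n - h < e^u < n - h + 1` (a product `p q` in the window lies in `(n-h, n-1]`, and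
`p, q ≥ (1-3η) M ≥ (1-4η) sqrt n`). These sets are disjoint for different `n`, of length `≥ 1/(2X)`. -/
def ST_BN : Prop := ∀ η ε : ℝ, 0 < η → η ≤ 1 / 10 → 0 < ε → ∃ X₀ : ℝ, ∀ X : ℝ, X₀ ≤ X →
  (((IocN X ((1 + η) * X)).filter (fun n : ℕ => ¬ ∃ p q : ℕ, p.Prime ∧ q.Prime ∧ p * q < n ∧
    (n : ℝ) - η * Real.sqrt n ≤ ((p * q : ℕ) : ℝ) ∧ (1 - 4 * η) * Real.sqrt n ≤ p ∧
    (1 - 4 * η) * Real.sqrt n ≤ q)).card : ℝ) ≤ ε * X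

open Classical in
/-- FIN (from BN): the conjecture holds for almost all `n`. -/
def ST_FIN : Prop := ∀ ε : ℝ, 0 < ε → Filter.Tendsto (fun N : ℕ =>
  (((Finset.range (N + 1)).filter (fun n : ℕ => ¬ ∃ m : ℕ, m < n ∧ 1 < m ∧ ¬ Nat.Prime m ∧
    (n : ℝ) + (1 - ε) * Real.sqrt (n : ℝ) ≤ (m : ℝ) + (Nat.minFac m : ℝ))).card : ℝ) / N)
  Filter.atTop (nhds 0)

end Pool.Agent.Helper99.AA
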