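import Pool.Agent.Helper99.AA.Stmts

set_option autoImplicit false

/-!
Project AA: basic lemmas on `nit`, `ro`, `rt`, `rL`, `Mt`, `Gv`.
-/

open Finset MeasureTheory
open scoped BigOperators Nat ArithmeticFunction.vonMangoldt

namespace Pool.Agent.Helper99.AA

open Pool.Agent.Helper40.MR

/-! ### `nit` -/

theorem norm_nit (n : ℕ) (t : ℝ) : ‖nit n t‖ = 1 := by
  unfold nit
  rw [← Complex.ofReal_neg]
  exact Complex.norm_exp_ofReal_mul_I _

theorem norm_xiu (x u : ℝ) : ‖xiu x u‖ = 1 := by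
  unfold xiu
  exact Complex.norm_exp_ofReal_mul_I _

theorem nit_one (t : ℝ) : nit 1 t = 1 := by
  unfold nit
  simp

theorem nit_t_zero (n : ℕ) : nit n 0 = 1 := by
  unfold nit
  simp

theorem nit_mul {m n : ℕ} (hm : m ≠ 0) (hn : n ≠ 0) (t : ℝ) : nit (m * n) t = nit m t * nit n t := by
  unfold nit
  rw [← Complex.exp_add]
  have h1 : (m : ℝ) ≠ 0 := by exact_mod_cast hm
  have h2 : (n : ℝ) ≠ 0 := by exact_mod_cast hn
  rw [Nat.cast_mul, Real.log_mul h1 h2]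
  congr 1
  push_cast
  ring

theorem nit_add (n : ℕ) (s t : ℝ) : nit n (s + t) = nit n s * nit n t := by
  unfold nit
  rw [← Complex.exp_add]
  congr 1
  push_cast
  ring

theorem nit_eq_xiu (n : ℕ) (t : ℝ) : nit n t = xiu n (-t) := by
  unfold nit xiu
  congr 1
  push_cast
  ring

theorem xiu_add (x u v : ℝ) : xiu x (u + v) = xiu x u * xiu x v := by
  unfold xiu
  rw [← Complex.exp_add]
  congr 1
  push_cast
  ring

theorem xiu_mul {x y : ℝ} (hx : x ≠ 0) (hy : y ≠ 0) (u : ℝ) : xiu (x * y) u = xiu x u * xiu y u := by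
  unfold xiu
  rw [← Complex.exp_add, Real.log_mul hx hy]
  congr 1
  push_cast
  ring

theorem xiu_div {x y : ℝ} (hx : x ≠ 0) (hy : y ≠ 0) (u : ℝ) : xiu (x / y) u = xiu x u * xiu y (-u) := by
  unfold xiu
  rw [← Complex.exp_add, Real.log_div hx hy]
  congr 1
  push_cast
  ring

theorem nit_continuous (n : ℕ) : Continuous (nit n) := by
  unfold nit
  fun_prop

/-! ### `Mt` -/

theorem one_sub_ne (t : ℝ) : (1 : ℂ) - (t : ℂ) * Complex.I ≠ 0 := by
  intro h
  have := congrArg Complex.re h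
  simp at this

theorem norm_one_sub_ge_one (t : ℝ) : 1 ≤ ‖(1 : ℂ) - (t : ℂ) * Complex.I‖ := by
  have := Complex.abs_re_le_norm ((1 : ℂ) - (t : ℂ) * Complex.I)
  simpa using this

theorem norm_one_sub_ge_abs (t : ℝ) : |t| ≤ ‖(1 : ℂ) - (t : ℂ) * Complex.I‖ := by
  have := Complex.abs_im_le_norm ((1 : ℂ) - (t : ℂ) * Complex.I)
  simpa using this

theorem norm_Mt_eq {N : ℝ} (hN : 0 ≤ N) (t : ℝ) :
    ‖Mt N t‖ = N / ‖(1 : ℂ) - (t : ℂ) * Complex.I‖ := by
  unfold Mt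
  rw [norm_div, norm_mul, norm_xiu, mul_one, Complex.norm_real, Real.norm_of_nonneg hN]

theorem norm_Mt_le {N : ℝ} (hN : 0 ≤ N) (t : ℝ) : ‖Mt N t‖ ≤ N := by
  rw [norm_Mt_eq hN]
  exact div_le_self hN (norm_one_sub_ge_one t)

theorem norm_Mt_le' {N : ℝ} (hN : 0 ≤ N) {t : ℝ} (ht : t ≠ 0) : ‖Mt N t‖ ≤ N / |t| := by
  rw [norm_Mt_eq hN]
  exact div_le_div_of_nonneg_left hN (abs_pos.2 ht) (norm_one_sub_ge_abs t)

/-- `d ^ (-i t) (N / d) ^ (1 - i t) = N ^ (1 - i t) / d` -/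
theorem nit_Mt {d : ℕ} (hd : d ≠ 0) {N : ℝ} (hN : 0 < N) (t : ℝ) :
    nit d t * Mt (N / d) t = Mt N t / d := by
  have h1 : (d : ℝ) ≠ 0 := by exact_mod_cast hd
  have h2 : (d : ℂ) ≠ 0 := by exact_mod_cast hd
  unfold Mt
  rw [nit_eq_xiu, xiu_div hN.ne' h1, neg_neg]
  have h3 : xiu d (-t) * xiu d t = 1 := by
    rw [← xiu_add]
    unfold xiu
    simp
  have h4 := one_sub_ne t
  push_cast
  calc xiu d (-t) * ((N : ℂ) / (d : ℂ) * (xiu N (-t) * xiu d t) / (1 - (t : ℂ) * Complex.I))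
      = (xiu d (-t) * xiu d t) * ((N : ℂ) * xiu N (-t) / (1 - (t : ℂ) * Complex.I) / (d : ℂ)) := by
        field_simp
    _ = _ := by rw [h3, one_mul]

/-! ### Rough numbers -/

theorem Ro_mul {y m n : ℕ} : Ro y (m * n) ↔ Ro y m ∧ Ro y n := by
  constructor
  · intro h
    exact ⟨fun p hp hpm => h p hp (hpm.mul_right n), fun p hp hpn => h p hp (hpn.mul_left m)⟩
  · rintro ⟨h1, h2⟩ p hp hpm
    rcases hp.dvd_mul.1 hpm with h | h
    · exact h1 p hp h
    · exact h2 p hp h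

theorem Ro_one (y : ℕ) : Ro y 1 := by
  intro p hp hp1
  exact absurd (Nat.dvd_one.1 hp1) hp.one_lt.ne'

theorem not_Ro_zero {y : ℕ} (hy : 2 ≤ y) : ¬ Ro y 0 := by
  intro h
  have := h 2 Nat.prime_two (dvd_zero 2)
  omega

/-- a rough number is `1` or larger than `y` -/
theorem Ro_eq_one_or {y n : ℕ} (hy : 2 ≤ y) (h : Ro y n) : n = 1 ∨ y < n := by
  by_cases h0 : n = 0
  · rw [h0] at h
    exact absurd h (not_Ro_zero hy)
  by_cases h1 : n = 1
  · exact Or.inl h1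
  · right
    obtain ⟨p, hp, hpn⟩ := Nat.exists_prime_and_dvd h1
    exact lt_of_lt_of_le (h p hp hpn) (Nat.le_of_dvd (Nat.pos_of_ne_zero h0) hpn)

theorem Ro_prime {y p : ℕ} (hp : p.Prime) : Ro y p ↔ y < p := by
  constructor
  · intro h
    exact h p hp dvd_rfl
  · intro h q hq hqp
    rwa [(Nat.prime_dvd_prime_iff_eq hq hp).1 hqp]

theorem ro_pos {y n : ℕ} (h : Ro y n) : ro y n = 1 := if_pos h

theorem ro_neg {y n : ℕ} (h : ¬ Ro y n) : ro y n = 0 := if_neg h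

theorem ro_one (y : ℕ) : ro y 1 = 1 := ro_pos (Ro_one y)

theorem ro_zero {y : ℕ} (hy : 2 ≤ y) : ro y 0 = 0 := ro_neg (not_Ro_zero hy)

theorem ro_mul (y m n : ℕ) : ro y (m * n) = ro y m * ro y n := by
  by_cases h1 : Ro y m
  · by_cases h2 : Ro y n
    · rw [ro_pos h1, ro_pos h2, ro_pos (Ro_mul.2 ⟨h1, h2⟩), one_mul]
    · rw [ro_neg h2, mul_zero, ro_neg fun h => h2 (Ro_mul.1 h).2]
  · rw [ro_neg h1, zero_mul, ro_neg fun h => h1 (Ro_mul.1 h).1]

theorem norm_ro_le (y n : ℕ) : ‖ro y n‖ ≤ 1 := by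
  by_cases h : Ro y n
  · rw [ro_pos h, norm_one]
  · rw [ro_neg h, norm_zero]
    exact zero_le_one

theorem ro_small {y n : ℕ} (hy : 2 ≤ y) (hn : n ≠ 1) (hny : n ≤ y) : ro y n = 0 := by
  refine ro_neg fun h => ?_
  rcases Ro_eq_one_or hy h with h1 | h1
  · exact hn h1
  · omega

theorem norm_rt (y : ℕ) (t : ℝ) (n : ℕ) : ‖rt y t n‖ = ‖ro y n‖ := by
  unfold rt
  rw [norm_mul, norm_nit, mul_one]

theorem rt_zero_t (y n : ℕ) : rt y 0 n = ro y n := by
  unfold rt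
  rw [nit_t_zero, mul_one]

theorem rt_cm {y : ℕ} (hy : 2 ≤ y) (t : ℝ) : CM (rt y t) := by
  refine ⟨?_, ?_, ?_⟩
  · unfold rt
    rw [ro_one, nit_one, one_mul]
  · intro m n
    unfold rt
    rw [ro_mul]
    by_cases hm : m = 0
    · rw [hm, ro_zero hy]
      simp
    · by_cases hn : n = 0
      · rw [hn, ro_zero hy]
        simp
      · rw [nit_mul hm hn]
        ring
  · intro n
    rw [norm_rt]
    exact norm_ro_le y n

theorem rt_small {y n : ℕ} (hy : 2 ≤ y) (t : ℝ) (hn : n ≠ 1) (hny : n ≤ y) : rt y t n = 0 := by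
  unfold rt
  rw [ro_small hy hn hny, zero_mul]

theorem norm_rL_le (y : ℕ) (t : ℝ) (n : ℕ) : ‖rL y t n‖ ≤ Λ n := by
  unfold rL
  rw [norm_mul, norm_rt, Complex.norm_real, Real.norm_of_nonneg ArithmeticFunction.vonMangoldt_nonneg]
  exact mul_le_of_le_one_left ArithmeticFunction.vonMangoldt_nonneg (norm_ro_le y n)

theorem rL_small {y n : ℕ} (hy : 2 ≤ y) (t : ℝ) (hny : n ≤ y) : rL y t n = 0 := by
  unfold rL
  by_cases hn : n = 1
  · rw [hn]
    simp
  · rw [rt_small hy t hn hny, zero_mul]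

/-! ### Small arguments -/

theorem Ph_small {k y : ℕ} (hk : 1 ≤ k) (hy : 2 ≤ y) {N : ℝ} (t : ℝ) (hN : N < y + 1) :
    Ph k y N t = 0 := by
  unfold Ph Sg
  refine Finset.sum_eq_zero fun n hn => ?_
  obtain ⟨h1, h2⟩ := Finset.mem_Icc.1 hn
  by_cases hn1 : n = 1
  · rw [hn1]
    simp only [Nat.cast_one, Real.log_one, Complex.ofReal_zero]
    rw [zero_pow (by omega), zero_mul]
  · have h3 : n ≤ y := by
      have h4 : (n : ℝ) < y + 1 := lt_of_le_of_lt ((Nat.le_floor_iff' (by omega)).1 h2) hN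
      have h5 : n < y + 1 := by exact_mod_cast h4
      omega
    rw [rt_small hy t hn1 h3, mul_zero]

theorem Ph_zero_small {y : ℕ} (hy : 2 ≤ y) {N : ℝ} (t : ℝ) (h1N : 1 ≤ N) (hN : N < y + 1) :
    Ph 0 y N t = 1 := by
  unfold Ph Sg
  rw [Finset.sum_eq_single 1]
  · rw [pow_zero, one_mul]
    exact (rt_cm hy t).1
  · intro n hn hn1
    have h2 := (Finset.mem_Icc.1 hn).2
    have h0 := (Finset.mem_Icc.1 hn).1
    have h3 : n ≤ y := by
      have h4 : (n : ℝ) < y + 1 := lt_of_le_of_lt ((Nat.le_floor_iff' (by omega)).1 h2) hN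
      have h5 : n < y + 1 := by exact_mod_cast h4
      omega
    rw [rt_small hy t hn1 h3, mul_zero]
  · intro h
    exact absurd (Finset.mem_Icc.2 ⟨le_rfl, Nat.le_floor (by simpa using h1N)⟩) h

theorem Sv_small {y : ℕ} (hy : 2 ≤ y) {v : ℝ} (t : ℝ) (hv : v < y + 1) : Sv y t v = 0 := by
  unfold Sv Sg
  refine Finset.sum_eq_zero fun n hn => ?_
  obtain ⟨h1, h2⟩ := Finset.mem_Icc.1 hn
  refine rL_small hy t ?_
  have h4 : (n : ℝ) < y + 1 := lt_of_le_of_lt ((Nat.le_floor_iff' (by omega)).1 h2) hv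
  have h5 : n < y + 1 := by exact_mod_cast h4
  omega

/-! ### Dirichlet series -/

/-- shift of the argument, general coefficients -/
theorem LSeries_nit (a : ℕ → ℂ) (t : ℝ) (s : ℂ) :
    LSeries (fun n => a n * nit n t) s = LSeries a (s + (t : ℂ) * Complex.I) := by
  unfold LSeries
  refine tsum_congr fun n => ?_
  by_cases hn : n = 0
  · rw [hn, LSeries.term_zero, LSeries.term_zero]
  · have hn' : (n : ℂ) ≠ 0 := by exact_mod_cast hn
    rw [LSeries.term_of_ne_zero hn, LSeries.term_of_ne_zero hn]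
    have h1 : (n : ℂ) ^ (s + (t : ℂ) * Complex.I) = (n : ℂ) ^ s * (nit n t)⁻¹ := by
      rw [Complex.cpow_add _ _ hn']
      congr 1
      unfold nit
      rw [Complex.cpow_def_of_ne_zero hn', ← Complex.exp_neg, ← Complex.natCast_log]
      congr 1
      push_cast
      ring
    rw [h1]
    have h2 : nit n t ≠ 0 := by
      intro h
      have := norm_nit n t
      rw [h, norm_zero] at this
      exact one_ne_zero this.symm
    have h3 : (n : ℂ) ^ s ≠ 0 := by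
      rw [Complex.cpow_def_of_ne_zero hn']
      exact Complex.exp_ne_zero _
    field_simp

theorem Gv_nit (a : ℕ → ℂ) (t η u : ℝ) :
    Gv (fun n => a n * nit n t) η u = Gv a η (t + u) := by
  unfold Gv
  rw [LSeries_nit]
  congr 1
  push_cast
  ring

theorem Gv_rt (y : ℕ) (t η u : ℝ) : Gv (rt y t) η u = Gv (ro y) η (t + u) := Gv_nit (ro y) t η u

theorem Gv_rt_log (y : ℕ) (t η u : ℝ) :
    Gv (fun n => rt y t n * (Real.log n : ℂ)) η u =
      Gv (fun n => ro y n * (Real.log n : ℂ)) η (t + u) := by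
  rw [← Gv_nit]
  congr 1
  funext n
  unfold rt
  ring

end Pool.Agent.Helper99.AA
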