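import Pool.Agent.Helper99.AA.Basic

set_option autoImplicit false

/-!
Project AA, row FL: the fundamental lemma for twisted sums over rough numbers, by induction with
Buchstab's identity.
-/

open Finset MeasureTheory
open scoped BigOperators Nat

namespace Pool.Agent.Helper99.AA

open Pool.Agent.Helper40.MR

theorem fl_triv (hRS : ST_RS) (hVM : ST_VM) : ∃ C : ℝ, 0 < C ∧ ∀ (y : ℕ) (N t : ℝ), 2 ≤ y →
    (y : ℝ) ≤ N → ‖Dd y N t‖ ≤ C * (N / Real.log y) := by
  obtain ⟨C1, h1, hC1⟩ := hRS
  obtain ⟨C2, h2, hC2⟩ := hVM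
  refine ⟨C1 + C2, by positivity, ?_⟩
  intro y N t hy hN
  have hy' : (2 : ℝ) ≤ y := by exact_mod_cast hy
  have hN0 : 0 < N := by linarith
  have hl : 0 < Real.log y := Real.log_pos (by linarith)
  have a1 : ‖Ph 0 y N t‖ ≤ C1 * (N / Real.log y) := by
    refine le_trans ?_ (hC1 y N hy hN)
    unfold Ph Sg
    refine (norm_sum_le _ _).trans (Finset.sum_le_sum fun n _ => ?_)
    rw [pow_zero, one_mul, norm_rt]
  have a2 : ‖(Vy y : ℂ) * Mt N t‖ ≤ C2 * (N / Real.log y) := by
    obtain ⟨b1, b2⟩ := hC2 y hy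
    rw [norm_mul, Complex.norm_real, Real.norm_of_nonneg b1]
    calc Vy y * ‖Mt N t‖ ≤ (C2 / Real.log y) * N :=
          mul_le_mul b2 (norm_Mt_le hN0.le t) (norm_nonneg _) (by positivity)
      _ = C2 * (N / Real.log y) := by ring
  unfold Dd
  calc ‖Ph 0 y N t - (Vy y : ℂ) * Mt N t‖ ≤ ‖Ph 0 y N t‖ + ‖(Vy y : ℂ) * Mt N t‖ := norm_sub_le _ _
    _ ≤ C1 * (N / Real.log y) + C2 * (N / Real.log y) := add_le_add a1 a2
    _ = (C1 + C2) * (N / Real.log y) := by ring

/-- the base case -/
theorem fl_base (hLE : ST_LE) {A c CZ : ℝ} (hA : 1 ≤ A) (hc : 0 < c) (hc1 : c ≤ 1 / 2) (hCZ : 0 < CZ)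
    (hZ : ∀ t M : ℝ, 1 ≤ M → 2 + |t| ≤ M ^ (2 * A) →
      ‖Sg (fun n => nit n t) M - Mt M t‖ ≤ CZ * M ^ (1 - c))
    (y0 y1 : ℕ) (hy0 : 2 ≤ y0) (hy0c : 2 / c ≤ Real.log y0) :
    ∃ z0 : ℝ, 1 ≤ z0 ∧ ∀ (y : ℕ) (z N t : ℝ), y0 ≤ y → y ≤ y1 → z0 ≤ z → 2 + |t| ≤ z ^ A → z ≤ N →
      ‖Dd y N t‖ ≤ N / Real.log y * Real.exp (-((Real.log N - Real.log z) / Real.log y)) := by
  set P : ℝ := (primorial y1 : ℝ) with hP
  have hP1 : 1 ≤ P := by
    have : 1 ≤ primorial y1 := primorial_pos y1
    rw [hP]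
    exact_mod_cast this
  have hlim : Filter.Tendsto (fun z : ℝ => z ^ (c / 2)) Filter.atTop Filter.atTop :=
    tendsto_rpow_atTop (by positivity)
  obtain ⟨z1, hz1⟩ := Filter.eventually_atTop.1 (hlim.eventually_ge_atTop (P * CZ * (1 + Real.log (y1 + 2))))
  refine ⟨max (max z1 (P ^ 2)) 1, le_max_right _ _, ?_⟩
  intro y z N t hy hyy1 hz ht hN
  have hz1' : z1 ≤ z := (le_max_left _ _).trans ((le_max_left _ _).trans hz)
  have hzP : P ^ 2 ≤ z := (le_max_right _ _).trans ((le_max_left _ _).trans hz)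
  have hz1'' : 1 ≤ z := (le_max_right _ _).trans hz
  have hy2 : 2 ≤ y := hy0.trans hy
  have hy' : (2 : ℝ) ≤ y := by exact_mod_cast hy2
  have hN1 : 1 ≤ N := hz1''.trans hN
  have hN0 : 0 < N := by linarith
  have hl : 0 < Real.log y := Real.log_pos (by linarith)
  have hprim : primorial y ≤ primorial y1 := primorial_mono hyy1
  have hcd : ((primorial y).divisors.card : ℝ) ≤ P := by
    have h1 : (primorial y).divisors.card ≤ primorial y := Nat.card_divisors_le_self _
    have h2 : (primorial y).divisors.card ≤ primorial y1 := h1.trans hprim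
    rw [hP]
    exact_mod_cast h2
  have hterm : ∀ d ∈ (primorial y).divisors,
      ‖Sg (fun n => nit n t) (N / d) - Mt (N / d) t‖ ≤ CZ * N ^ (1 - c) := by
    intro d hd
    have hdp : 0 < d := Nat.pos_of_mem_divisors hd
    have hd1 : (1 : ℝ) ≤ d := by exact_mod_cast hdp
    have hdP : (d : ℝ) ≤ P := by
      have h1 : d ≤ primorial y := Nat.divisor_le hd
      have h2 : d ≤ primorial y1 := h1.trans hprim
      rw [hP]
      exact_mod_cast h2
    have hM : Real.sqrt z ≤ N / d := by
      have h1 : P ≤ Real.sqrt z := Real.le_sqrt_of_sq_le hzP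
      have h3 : Real.sqrt z * Real.sqrt z = z := Real.mul_self_sqrt (by linarith)
      rw [le_div_iff₀ (by linarith)]
      calc Real.sqrt z * d ≤ Real.sqrt z * Real.sqrt z := by
            refine mul_le_mul_of_nonneg_left (hdP.trans h1) (by positivity)
        _ = z := h3
        _ ≤ N := hN
    have hM1 : 1 ≤ N / d := by
      refine le_trans ?_ hM
      rw [← Real.sqrt_one]
      exact Real.sqrt_le_sqrt hz1''
    have ht' : 2 + |t| ≤ (N / d) ^ (2 * A) := by
      refine ht.trans ?_
      calc z ^ A = (Real.sqrt z) ^ (2 * A) := by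
            rw [Real.sqrt_eq_rpow, ← Real.rpow_mul (by linarith)]
            congr 1
            ring
        _ ≤ (N / d) ^ (2 * A) := Real.rpow_le_rpow (by positivity) hM (by linarith)
    refine (hZ t (N / d) hM1 ht').trans ?_
    refine mul_le_mul_of_nonneg_left ?_ hCZ.le
    exact Real.rpow_le_rpow (by positivity) (div_le_self hN0.le hd1) (by linarith)
  have hsum : ‖Dd y N t‖ ≤ P * (CZ * N ^ (1 - c)) := by
    refine (hLE y N t hy2 hN0).trans ((Finset.sum_le_card_nsmul _ _ _ hterm).trans ?_)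
    rw [nsmul_eq_mul]
    exact mul_le_mul_of_nonneg_right hcd (by positivity)
  refine hsum.trans ?_
  have hly0 : Real.log y0 ≤ Real.log y := by
    refine Real.log_le_log ?_ (by exact_mod_cast hy)
    have : (2 : ℝ) ≤ y0 := by exact_mod_cast hy0
    linarith
  have hly1 : Real.log y ≤ 1 + Real.log (y1 + 2) := by
    have h1 : Real.log y ≤ Real.log (y1 + 2) := by
      refine Real.log_le_log (by linarith) ?_
      have : (y : ℝ) ≤ y1 := by exact_mod_cast hyy1
      linarith
    linarith
  have hexp : N ^ (-(c / 2)) ≤ Real.exp (-((Real.log N - Real.log z) / Real.log y)) := by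
    rw [Real.rpow_def_of_pos hN0]
    refine Real.exp_le_exp.2 ?_
    have h1 : (Real.log N - Real.log z) / Real.log y ≤ Real.log N * (c / 2) := by
      rw [div_le_iff₀ hl]
      have h2 : 2 / c ≤ Real.log y := hy0c.trans hly0
      have h3 : 1 ≤ c / 2 * Real.log y := by
        rw [div_le_iff₀ hc] at h2
        linarith
      have h4 : 0 ≤ Real.log N := Real.log_nonneg hN1
      have h5 : 0 ≤ Real.log z := Real.log_nonneg hz1''
      nlinarith
    linarith
  have hN2 : P * CZ * (1 + Real.log (y1 + 2)) ≤ N ^ (c / 2) := by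
    refine (hz1 z hz1').trans ?_
    exact Real.rpow_le_rpow (by linarith) hN (by positivity)
  have hsplit : N ^ (1 - c) = N * N ^ (-(c / 2)) * N ^ (-(c / 2)) := by
    have : N * N ^ (-(c / 2)) * N ^ (-(c / 2)) = N ^ (1 : ℝ) * N ^ (-(c / 2)) * N ^ (-(c / 2)) := by
      rw [Real.rpow_one]
    rw [this, ← Real.rpow_add hN0, ← Real.rpow_add hN0]
    congr 1
    ring
  rw [hsplit]
  have hkey : P * CZ * N ^ (-(c / 2)) ≤ 1 / Real.log y := by
    rw [le_div_iff₀ hl, Real.rpow_neg hN0.le]
    have h1 : 0 < N ^ (c / 2) := by positivity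
    rw [mul_assoc, ← div_eq_inv_mul, ← mul_div_assoc, div_le_one h1]
    refine le_trans ?_ hN2
    exact mul_le_mul_of_nonneg_left hly1 (by positivity)
  calc P * (CZ * (N * N ^ (-(c / 2)) * N ^ (-(c / 2))))
      = (P * CZ * N ^ (-(c / 2))) * (N * N ^ (-(c / 2))) := by ring
    _ ≤ (1 / Real.log y) * (N * Real.exp (-((Real.log N - Real.log z) / Real.log y))) := by
        refine mul_le_mul hkey ?_ (by positivity) (by positivity)
        exact mul_le_mul_of_nonneg_left hexp hN0.le
    _ = N / Real.log y * Real.exp (-((Real.log N - Real.log z) / Real.log y)) := by ring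

/-- numerical constants of the induction step -/
theorem fl_num : (20 / 19 : ℝ) * Real.exp (-(4 / 5)) + (20 / 19) * Real.exp 1 * (1 / 10) ≤ 1 := by
  have h1 := Real.exp_one_lt_d9
  have h2 : Real.exp (-(4 / 5) : ℝ) ≤ 1 / 2.12 := by
    rw [Real.exp_neg, ← one_div]
    refine one_div_le_one_div_of_le (by norm_num) ?_
    have := Real.quadratic_le_exp_of_nonneg (show (0 : ℝ) ≤ 4 / 5 by norm_num)
    norm_num at this ⊢
    linarith
  norm_num at h2 ⊢
  nlinarith

/-- the induction step -/
theorem fl_step (hBB : ST_BB) {C : ℝ} (hC : 0 < C) (y w : ℕ) (z N t : ℝ)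
    (hw2 : 2 ≤ w) (hwy : w < y) (hz0 : 0 < z)
    (hl1 : 19 / 20 * Real.log y ≤ Real.log w) (hl2 : Real.log w ≤ 39 / 40 * Real.log y)
    (hMI : ∑ p ∈ (Ioc w y).filter Nat.Prime, 1 / (p : ℝ) ≤ 1 / 10)
    (hL : 32 * Real.log y ≤ Real.log N - Real.log z) (hzN : z ≤ N)
    (ih : ∀ m : ℕ, w ≤ m → m < y → ∀ N' : ℝ, z ≤ N' →
      ‖Dd m N' t‖ ≤ C * (N' / Real.log m * Real.exp (-((Real.log N' - Real.log z) / Real.log m)))) :
    ‖Dd y N t‖ ≤ C * (N / Real.log y * Real.exp (-((Real.log N - Real.log z) / Real.log y))) := by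
  have hN0 : 0 < N := by linarith
  have hy' : (2 : ℝ) < y := by
    have : 2 < y := lt_of_le_of_lt hw2 hwy
    exact_mod_cast this
  set l := Real.log y with hl
  have hl0 : 0 < l := Real.log_pos (by linarith)
  set L := Real.log N - Real.log z with hLdef
  have hL0 : 0 ≤ L := by nlinarith
  have hw' : (2 : ℝ) ≤ w := by exact_mod_cast hw2
  have hlw0 : 0 < Real.log w := Real.log_pos (by linarith)
  have hinv : ∀ m : ℕ, w ≤ m → 1 / Real.log m ≤ 20 / 19 * (1 / l) := by
    intro m hm
    have h1 : Real.log w ≤ Real.log m := Real.log_le_log (by linarith) (by exact_mod_cast hm)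
    have h2 : 19 / 20 * l ≤ Real.log m := hl1.trans h1
    calc 1 / Real.log m ≤ 1 / (19 / 20 * l) := one_div_le_one_div_of_le (by positivity) h2
      _ = 20 / 19 * (1 / l) := by
          field_simp
  rw [hBB w y N t hw2 hwy.le hN0]
  have hE0 : 0 < Real.exp (-(L / l)) := Real.exp_pos _
  -- first term
  have t1 : ‖Dd w N t‖ ≤ C * (N / l * Real.exp (-(L / l))) * (20 / 19 * Real.exp (-(4 / 5))) := by
    refine (ih w le_rfl hwy N hzN).trans ?_
    have e1 : Real.exp (-(L / Real.log w)) ≤ Real.exp (-(L / l)) * Real.exp (-(4 / 5)) := by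
      rw [← Real.exp_add]
      refine Real.exp_le_exp.2 ?_
      have h1 : L / (39 / 40 * l) ≤ L / Real.log w := div_le_div_of_nonneg_left hL0 hlw0 hl2
      have h2 : L / (39 / 40 * l) = L / l + L / (39 * l) := by
        field_simp
        norm_num
      have h3 : 32 / 39 ≤ L / (39 * l) := by
        rw [le_div_iff₀ (by positivity)]
        linarith
      linarith
    have e2 := hinv w le_rfl
    calc C * (N / Real.log w * Real.exp (-(L / Real.log w)))
        = C * (N * (1 / Real.log w) * Real.exp (-(L / Real.log w))) := by ring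
      _ ≤ C * (N * (20 / 19 * (1 / l)) * (Real.exp (-(L / l)) * Real.exp (-(4 / 5)))) := by
          gcongr
      _ = _ := by ring
  -- the sum over primes
  have t2 : ‖∑ p ∈ (Ioc w y).filter Nat.Prime, nit p t * Dd (p - 1) (N / p) t‖ ≤
      C * (N / l * Real.exp (-(L / l))) * (20 / 19 * Real.exp 1 * (1 / 10)) := by
    have h1 : ∀ p ∈ (Ioc w y).filter Nat.Prime, ‖nit p t * Dd (p - 1) (N / p) t‖ ≤
        C * (N / l * Real.exp (-(L / l))) * (20 / 19 * Real.exp 1) * (1 / (p : ℝ)) := by
      intro p hp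
      obtain ⟨hp1, hp2⟩ := Finset.mem_filter.1 hp
      obtain ⟨hp3, hp4⟩ := Finset.mem_Ioc.1 hp1
      have hpp : (0 : ℝ) < p := by exact_mod_cast hp2.pos
      have hpy : (p : ℝ) ≤ y := by exact_mod_cast hp4
      have hlp : Real.log p ≤ l := Real.log_le_log hpp hpy
      have hlN : Real.log (N / p) = Real.log N - Real.log p := Real.log_div hN0.ne' hpp.ne'
      have hzN' : z ≤ N / p := by
        have h2 : Real.log z ≤ Real.log (N / p) := by
          rw [hlN]
          linarith
        exact (Real.log_le_log_iff hz0 (by positivity)).1 h2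
      have hwp : w ≤ p - 1 := by omega
      have hpy' : p - 1 < y := by omega
      rw [norm_mul, norm_nit, one_mul]
      refine (ih (p - 1) hwp hpy' (N / p) hzN').trans ?_
      have hm2 : (2 : ℝ) ≤ ((p - 1 : ℕ) : ℝ) := by
        have : 2 ≤ p - 1 := hw2.trans hwp
        exact_mod_cast this
      have hlm0 : 0 < Real.log ((p - 1 : ℕ) : ℝ) := Real.log_pos (by linarith)
      have hlm : Real.log ((p - 1 : ℕ) : ℝ) ≤ l := by
        refine Real.log_le_log (by linarith) ?_
        have : p - 1 ≤ y := hpy'.le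
        exact_mod_cast this
      have e1 : Real.exp (-((Real.log (N / p) - Real.log z) / Real.log ((p - 1 : ℕ) : ℝ))) ≤
          Real.exp 1 * Real.exp (-(L / l)) := by
        rw [← Real.exp_add]
        refine Real.exp_le_exp.2 ?_
        rw [hlN]
        have h2 : 0 ≤ L - l := by linarith
        have h3 : (L - l) / l ≤ (L - l) / Real.log ((p - 1 : ℕ) : ℝ) :=
          div_le_div_of_nonneg_left h2 hlm0 hlm
        have h4 : (L - l) / Real.log ((p - 1 : ℕ) : ℝ) ≤
            (Real.log N - Real.log p - Real.log z) / Real.log ((p - 1 : ℕ) : ℝ) := by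
          refine div_le_div_of_nonneg_right ?_ hlm0.le
          linarith
        have h5 : (L - l) / l = L / l - 1 := by
          field_simp
        linarith
      have e2 := hinv (p - 1) hwp
      calc C * (N / p / Real.log ((p - 1 : ℕ) : ℝ) *
            Real.exp (-((Real.log (N / p) - Real.log z) / Real.log ((p - 1 : ℕ) : ℝ))))
          = C * (N * (1 / (p : ℝ)) * (1 / Real.log ((p - 1 : ℕ) : ℝ)) *
            Real.exp (-((Real.log (N / p) - Real.log z) / Real.log ((p - 1 : ℕ) : ℝ)))) := by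
            field_simp
        _ ≤ C * (N * (1 / (p : ℝ)) * (20 / 19 * (1 / l)) * (Real.exp 1 * Real.exp (-(L / l)))) := by
            gcongr
        _ = _ := by ring
    refine (norm_sum_le _ _).trans ((Finset.sum_le_sum h1).trans ?_)
    rw [← Finset.mul_sum]
    calc C * (N / l * Real.exp (-(L / l))) * (20 / 19 * Real.exp 1) *
          ∑ p ∈ (Ioc w y).filter Nat.Prime, 1 / (p : ℝ)
        ≤ C * (N / l * Real.exp (-(L / l))) * (20 / 19 * Real.exp 1) * (1 / 10) := by
          refine mul_le_mul_of_nonneg_left hMI (by positivity)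
      _ = _ := by ring
  refine (norm_sub_le _ _).trans ((add_le_add t1 t2).trans ?_)
  rw [← mul_add]
  have h3 : 0 ≤ C * (N / l * Real.exp (-(L / l))) := by positivity
  calc C * (N / l * Real.exp (-(L / l))) *
        (20 / 19 * Real.exp (-(4 / 5)) + 20 / 19 * Real.exp 1 * (1 / 10))
      ≤ C * (N / l * Real.exp (-(L / l))) * 1 := mul_le_mul_of_nonneg_left fl_num h3
    _ = _ := mul_one _

theorem st_FL (hZ : ST_Z) (hRS : ST_RS) (hVM : ST_VM) (hMI : ST_MI) (hBB : ST_BB) (hLE : ST_LE) :
    ST_FL := by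
  obtain ⟨C1, hC1, htriv⟩ := fl_triv hRS hVM
  set C : ℝ := C1 * Real.exp 32 + 1 with hCdef
  have hC : 0 < C := by positivity
  have hC' : 1 ≤ C := by
    have : 0 ≤ C1 * Real.exp 32 := by positivity
    linarith
  refine ⟨C * Real.exp 1, by positivity, ?_⟩
  intro A hA
  obtain ⟨c, hc0, hc1, CZ, hCZ, hZ'⟩ := hZ (2 * A) (by linarith)
  obtain ⟨ym, hym⟩ := hMI (1 / 40) (by norm_num) (by norm_num)
  -- `y0`
  obtain ⟨y0, hy02, hy0c⟩ : ∃ y0 : ℕ, 2 ≤ y0 ∧ 2 / c ≤ Real.log y0 := by
    obtain ⟨n, hn⟩ := exists_nat_gt (Real.exp (2 / c))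
    refine ⟨n + 2, by omega, ?_⟩
    have h1 : Real.exp (2 / c) ≤ ((n + 2 : ℕ) : ℝ) := by
      push_cast
      linarith
    calc 2 / c = Real.log (Real.exp (2 / c)) := (Real.log_exp _).symm
      _ ≤ Real.log ((n + 2 : ℕ) : ℝ) := Real.log_le_log (Real.exp_pos _) h1
  -- `y1`
  have hev : ∀ᶠ y : ℕ in Filter.atTop, (y0 : ℝ) + 1 ≤ (y : ℝ) ^ (39 / 40 : ℝ) ∧
      40 * Real.log 2 ≤ Real.log y ∧ ym ≤ y ∧ 2 ≤ y := by
    have l1 : Filter.Tendsto (fun y : ℕ => (y : ℝ) ^ (39 / 40 : ℝ)) Filter.atTop Filter.atTop :=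
      (tendsto_rpow_atTop (by norm_num)).comp tendsto_natCast_atTop_atTop
    have l2 : Filter.Tendsto (fun y : ℕ => Real.log y) Filter.atTop Filter.atTop :=
      Real.tendsto_log_atTop.comp tendsto_natCast_atTop_atTop
    filter_upwards [l1.eventually_ge_atTop ((y0 : ℝ) + 1), l2.eventually_ge_atTop (40 * Real.log 2),
      Filter.eventually_ge_atTop ym, Filter.eventually_ge_atTop 2] with y a1 a2 a3 a4
    exact ⟨a1, a2, a3, a4⟩
  obtain ⟨y1, hy1⟩ := Filter.eventually_atTop.1 hev
  obtain ⟨z0, hz01, hbase⟩ := fl_base hLE hA hc0 hc1 hCZ hZ' y0 y1 hy02 hy0c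
  have claim : ∀ y : ℕ, y0 ≤ y → ∀ z N t : ℝ, (y : ℝ) ≤ z → z0 ≤ z → 2 + |t| ≤ z ^ A → z ≤ N →
      ‖Dd y N t‖ ≤ C * (N / Real.log y * Real.exp (-((Real.log N - Real.log z) / Real.log y))) := by
    intro y
    induction y using Nat.strong_induction_on with
    | _ y ih =>
    intro hy0y z N t hyz hz0z ht hzN
    have hy2 : 2 ≤ y := hy02.trans hy0y
    have hy' : (2 : ℝ) ≤ y := by exact_mod_cast hy2
    have hl0 : 0 < Real.log y := Real.log_pos (by linarith)
    have hz1 : 1 ≤ z := hz01.trans hz0z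
    have hz0 : 0 < z := by linarith
    have hN0 : 0 < N := by linarith
    have hpos : 0 ≤ N / Real.log y * Real.exp (-((Real.log N - Real.log z) / Real.log y)) := by
      positivity
    by_cases hyy1 : y ≤ y1
    · refine (hbase y z N t hy0y hyy1 hz0z ht hzN).trans ?_
      exact le_mul_of_one_le_left hpos hC'
    · have hyy1' : y1 ≤ y := by omega
      obtain ⟨a1, a2, a3, -⟩ := hy1 y hyy1'
      by_cases hL : Real.log N - Real.log z ≤ 32 * Real.log y
      · refine (htriv y N t hy2 (hyz.trans hzN)).trans ?_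
        have h1 : Real.exp (-32) ≤ Real.exp (-((Real.log N - Real.log z) / Real.log y)) := by
          refine Real.exp_le_exp.2 ?_
          have : (Real.log N - Real.log z) / Real.log y ≤ 32 := by
            rw [div_le_iff₀ hl0]
            exact hL
          linarith
        have h2 : C1 ≤ C * Real.exp (-32) := by
          have h3 : C * Real.exp (-32) = C1 * (Real.exp 32 * Real.exp (-32)) + Real.exp (-32) := by
            rw [hCdef]
            ring
          rw [h3, ← Real.exp_add]
          norm_num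
          exact (Real.exp_pos _).le
        calc C1 * (N / Real.log y) ≤ (C * Real.exp (-32)) * (N / Real.log y) :=
              mul_le_mul_of_nonneg_right h2 (by positivity)
          _ = C * (N / Real.log y * Real.exp (-32)) := by ring
          _ ≤ C * (N / Real.log y * Real.exp (-((Real.log N - Real.log z) / Real.log y))) := by
              gcongr
      · push Not at hL
        set w : ℕ := ⌊(y : ℝ) ^ (39 / 40 : ℝ)⌋₊ with hw
        have hyp : (0 : ℝ) < (y : ℝ) ^ (39 / 40 : ℝ) := by positivity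
        have hwle : (w : ℝ) ≤ (y : ℝ) ^ (39 / 40 : ℝ) := Nat.floor_le hyp.le
        have hwge : (y : ℝ) ^ (39 / 40 : ℝ) < w + 1 := Nat.lt_floor_add_one _
        have hy0w : y0 ≤ w := Nat.le_floor (by linarith)
        have hwy : w < y := by
          have h1 : (y : ℝ) ^ (39 / 40 : ℝ) < (y : ℝ) ^ (1 : ℝ) :=
            Real.rpow_lt_rpow_of_exponent_lt (by linarith) (by norm_num)
          rw [Real.rpow_one] at h1
          have h2 : (w : ℝ) < y := lt_of_le_of_lt hwle h1
          exact_mod_cast h2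
        have hw2 : 2 ≤ w := hy02.trans hy0w
        have hw' : (2 : ℝ) ≤ w := by exact_mod_cast hw2
        have hl2 : Real.log w ≤ 39 / 40 * Real.log y := by
          calc Real.log w ≤ Real.log ((y : ℝ) ^ (39 / 40 : ℝ)) :=
                Real.log_le_log (by linarith) hwle
            _ = 39 / 40 * Real.log y := Real.log_rpow (by linarith) _
        have hl1 : 19 / 20 * Real.log y ≤ Real.log w := by
          have h1 : (y : ℝ) ^ (39 / 40 : ℝ) ≤ 2 * w := by linarith
          have h2 := Real.log_le_log hyp h1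
          rw [Real.log_rpow (by linarith), Real.log_mul (by norm_num) (by linarith)] at h2
          linarith
        have hMI' : ∑ p ∈ (Ioc w y).filter Nat.Prime, 1 / (p : ℝ) ≤ 1 / 10 := by
          have := hym y a3
          rw [show (1 - 1 / 40 : ℝ) = 39 / 40 by norm_num, show (4 * (1 / 40) : ℝ) = 1 / 10 by norm_num] at this
          exact this
        refine fl_step hBB hC y w z N t hw2 hwy hz0 hl1 hl2 hMI' hL.le hzN ?_
        intro m hwm hmy N' hzN'
        refine ih m hmy (hy0w.trans hwm) z N' t ?_ hz0z ht hzN'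
        have : (m : ℝ) ≤ y := by exact_mod_cast hmy.le
        exact this.trans hyz
  obtain ⟨n0, hn0⟩ := exists_nat_gt z0
  refine ⟨max y0 n0, hy02.trans (le_max_left _ _), ?_⟩
  intro y t N hy ht hN
  have hy0y : y0 ≤ y := (le_max_left _ _).trans hy
  have hn0y : n0 ≤ y := (le_max_right _ _).trans hy
  have hzy : z0 ≤ (y : ℝ) := by
    have : (n0 : ℝ) ≤ y := by exact_mod_cast hn0y
    linarith
  have hy2 : 2 ≤ y := hy02.trans hy0y
  have hy' : (2 : ℝ) ≤ y := by exact_mod_cast hy2
  have hl0 : 0 < Real.log y := Real.log_pos (by linarith)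
  refine (claim y hy0y y N t le_rfl hzy ht hN).trans (le_of_eq ?_)
  have h1 : Real.exp (-((Real.log N - Real.log y) / Real.log y)) =
      Real.exp 1 * Real.exp (-(Real.log N / Real.log y)) := by
    rw [← Real.exp_add]
    congr 1
    field_simp
    ring
  rw [h1]
  ring

end Pool.Agent.Helper99.AA
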