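import Pool.Agent.Helper99.AA.Basic
import Pool.Agent.Helper45.MR.H4

set_option autoImplicit false

/-!
Project AA, row MS: mean value of `Sv` over the scales.
-/

open Finset MeasureTheory
open scoped BigOperators Nat FourierTransform ArithmeticFunction.vonMangoldt

namespace Pool.Agent.Helper99.AA

open Pool.Agent.Helper40.MR

theorem ms_summable {g : ℕ → ℂ} (hg : CM g) {η : ℝ} (hη : 0 < η) {s : ℂ} (hs : s.re = 1 + η) :
    LSeriesSummable g s ∧ LSeriesSummable (fun n => g n * (Λ n : ℂ)) s := by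
  have s1 : LSeriesSummable (fun _ => ((1 : ℝ) : ℂ)) ((1 + η : ℝ) : ℂ) := by
    refine LSeriesSummable_of_bounded_of_one_lt_re (m := 1) (fun n _ => by simp) ?_
    rw [Complex.ofReal_re]
    linarith
  have sL : LSeriesSummable (fun n => (Λ n : ℂ)) ((1 + η : ℝ) : ℂ) :=
    ArithmeticFunction.LSeriesSummable_vonMangoldt (by rw [Complex.ofReal_re]; linarith)
  refine ⟨(h4_LS_le (a := g) (b := fun _ => 1) hg.2.2 s1 hs).1, (h4_LS_le (b := fun n => Λ n) ?_ sL hs).1⟩
  intro n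
  rw [norm_mul, Complex.norm_real, Real.norm_of_nonneg ArithmeticFunction.vonMangoldt_nonneg]
  exact mul_le_of_le_one_left ArithmeticFunction.vonMangoldt_nonneg (hg.2.2 n)

theorem ms_conv {g : ℕ → ℂ} (hg : CM g) {η : ℝ} (hη : 0 < η) {s : ℂ} (hs : s.re = 1 + η) :
    LSeriesSummable (fun n => g n * (Real.log n : ℂ)) s ∧
      LSeries (fun n => g n * (Real.log n : ℂ)) s =
        LSeries (fun n => g n * (Λ n : ℂ)) s * LSeries g s := by
  obtain ⟨h1, h2⟩ := ms_summable hg hη hs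
  have c1 := h2.convolution h1
  have c2 := LSeries_convolution' h2 h1
  have c3 : LSeriesSummable (fun n => g n * (Real.log n : ℂ)) s :=
    (LSeriesSummable_congr s fun {n} hn => h4_log_conv hg n hn).2 c1
  exact ⟨c3, by rw [← c2]; exact LSeries_congr (fun {n} hn => h4_log_conv hg n hn) s⟩

theorem ms_growth {g : ℕ → ℂ} (hg : CM g) {σ : ℝ} (hσ : 0 < σ) : ∀ v : ℝ, 0 ≤ v →
    ‖Sg (fun n => g n * (Real.log n : ℂ)) (Real.exp v)‖ ≤
      (2 / σ) * Real.exp ((1 + σ - σ / 2) * v) := by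
  intro v hv
  have h1 : ‖Sg (fun n => g n * (Real.log n : ℂ)) (Real.exp v)‖ ≤ Real.exp v * v := by
    unfold Sg
    refine (norm_sum_le _ _).trans ?_
    have h2 : ∀ n ∈ Icc 1 ⌊Real.exp v⌋₊, ‖g n * (Real.log n : ℂ)‖ ≤ v := by
      intro n hn
      obtain ⟨n1, n2⟩ := Finset.mem_Icc.1 hn
      have hn' : (1 : ℝ) ≤ n := by exact_mod_cast n1
      rw [Nat.le_floor_iff (Real.exp_pos v).le] at n2
      rw [norm_mul, Complex.norm_real, Real.norm_of_nonneg (Real.log_nonneg hn')]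
      have h3 : Real.log n ≤ v := (Real.log_le_iff_le_exp (by linarith)).2 n2
      calc ‖g n‖ * Real.log n ≤ 1 * Real.log n :=
            mul_le_mul_of_nonneg_right (hg.2.2 n) (Real.log_nonneg hn')
        _ ≤ v := by rwa [one_mul]
    refine (Finset.sum_le_card_nsmul _ _ _ h2).trans ?_
    rw [nsmul_eq_mul, Nat.card_Icc, Nat.add_sub_cancel]
    exact mul_le_mul_of_nonneg_right (Nat.floor_le (Real.exp_pos v).le) hv
  refine h1.trans ?_
  have h4 : v ≤ (2 / σ) * Real.exp (σ / 2 * v) := by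
    have h5 := Real.add_one_le_exp (σ / 2 * v)
    have h6 : v = (2 / σ) * (σ / 2 * v) := by field_simp
    calc v = (2 / σ) * (σ / 2 * v) := h6
      _ ≤ (2 / σ) * Real.exp (σ / 2 * v) := mul_le_mul_of_nonneg_left (by linarith) (by positivity)
  calc Real.exp v * v ≤ Real.exp v * ((2 / σ) * Real.exp (σ / 2 * v)) :=
        mul_le_mul_of_nonneg_left h4 (Real.exp_pos v).le
    _ = (2 / σ) * Real.exp ((1 + σ - σ / 2) * v) := by
        rw [mul_left_comm, ← Real.exp_add]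
        ring_nf

theorem ms_sq_exp {a v : ℝ} (ha : 0 < a) (hv : 0 ≤ v) :
    v ^ 2 * Real.exp (-(2 * (a * v))) ≤ 2 / a ^ 2 * Real.exp (-(a * v)) := by
  have h1 := Real.quadratic_le_exp_of_nonneg (show 0 ≤ a * v by positivity)
  have h2 : v ^ 2 ≤ 2 / a ^ 2 * Real.exp (a * v) := by
    have h3 : v ^ 2 = 2 / a ^ 2 * ((a * v) ^ 2 / 2) := by
      field_simp
    rw [h3]
    refine mul_le_mul_of_nonneg_left ?_ (by positivity)
    have : 0 ≤ a * v := by positivity
    linarith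
  calc v ^ 2 * Real.exp (-(2 * (a * v))) ≤ (2 / a ^ 2 * Real.exp (a * v)) * Real.exp (-(2 * (a * v))) :=
        mul_le_mul_of_nonneg_right h2 (Real.exp_pos _).le
    _ = 2 / a ^ 2 * Real.exp (-(a * v)) := by
        rw [mul_assoc, ← Real.exp_add]
        ring_nf

/-- mean square of the sums with the logarithm -/
theorem ms_b (hPS : ST_PS) : ∃ C : ℝ, 0 < C ∧ ∀ A : ℝ, 1 ≤ A → ∃ y₀ : ℕ, 2 ≤ y₀ ∧
    ∀ (y : ℕ) (η t : ℝ), y₀ ≤ y → 0 < η → 1 ≤ |t| → 2 + |t| ≤ (y : ℝ) ^ A →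
    ∫ v, ‖h4F (fun n => rt y t n * (Real.log n : ℂ)) η v‖ ^ 2 ≤
      C * (1 / (η ^ 3 * t ^ 2 * Real.log y ^ 2) + Real.log y) := by
  obtain ⟨C, hC, hPS'⟩ := hPS
  refine ⟨4 * C ^ 2, by positivity, ?_⟩
  intro A hA
  obtain ⟨y0, hy0, hPS''⟩ := hPS' A hA
  refine ⟨y0, hy0, ?_⟩
  intro y η t hy hη ht1 ht
  have hy2 : 2 ≤ y := hy0.trans hy
  have hy' : (2 : ℝ) ≤ y := by exact_mod_cast hy2
  set l := Real.log y with hldef
  have hl : 0 < l := Real.log_pos (by linarith)
  have ht0 : 0 < |t| := by linarith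
  set K1 : ℝ := 2 * C ^ 2 / l ^ 2 * (2 / (η ^ 2 * t ^ 2)) with hK1
  set K2 : ℝ := 4 * C ^ 2 with hK2
  have hSg : ∀ v, Sg (fun n => rt y t n * (Real.log n : ℂ)) (Real.exp v) = Ph 1 y (Real.exp v) t := by
    intro v
    unfold Ph
    congr 1
    funext n
    rw [pow_one, mul_comm]
  have hpt : ∀ v, ‖h4F (fun n => rt y t n * (Real.log n : ℂ)) η v‖ ^ 2 ≤
      (Set.Ici (0 : ℝ)).indicator (fun v => K1 * Real.exp (-(η * v))) v +
      (Set.Ici (0 : ℝ)).indicator (fun v => K2 * Real.exp (-(1 / l * v))) v := by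
    intro v
    by_cases hv : 0 ≤ v
    · rw [Set.indicator_of_mem (show v ∈ Set.Ici (0 : ℝ) from hv),
        Set.indicator_of_mem (show v ∈ Set.Ici (0 : ℝ) from hv)]
      have hr1 : 0 ≤ K1 * Real.exp (-(η * v)) := by positivity
      have hr2 : 0 ≤ K2 * Real.exp (-(1 / l * v)) := by positivity
      unfold h4F
      rw [hSg v]
      by_cases hvy : Real.exp v < y
      · rw [Ph_small le_rfl hy2 t (by linarith), zero_mul, norm_zero]
        norm_num
        positivity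
      · push Not at hvy
        have hb := hPS'' 1 y t (Real.exp v) (by norm_num) hy ht1 ht hvy
        rw [Real.log_exp, pow_one] at hb
        rw [norm_mul, Complex.norm_real, Real.norm_of_nonneg (Real.exp_pos _).le]
        have h1 : ‖Ph 1 y (Real.exp v) t‖ * Real.exp (-((1 + η) * v)) ≤
            C / l * (v * (1 / |t| + Real.exp (-(v / l))) * Real.exp (-(η * v))) := by
          calc ‖Ph 1 y (Real.exp v) t‖ * Real.exp (-((1 + η) * v))
              ≤ (C * (v * (Real.exp v / l) * (1 / |t| + Real.exp (-(v / l))))) *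
                Real.exp (-((1 + η) * v)) := mul_le_mul_of_nonneg_right hb (Real.exp_pos _).le
            _ = C / l * (v * (1 / |t| + Real.exp (-(v / l))) *
                (Real.exp v * Real.exp (-((1 + η) * v)))) := by ring
            _ = _ := by
                rw [← Real.exp_add]
                congr 3
                ring
        have h2 : (‖Ph 1 y (Real.exp v) t‖ * Real.exp (-((1 + η) * v))) ^ 2 ≤
            (C / l * (v * (1 / |t| + Real.exp (-(v / l))) * Real.exp (-(η * v)))) ^ 2 := by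
          gcongr
        refine h2.trans ?_
        have h3 : (1 / |t| + Real.exp (-(v / l))) ^ 2 ≤ 2 * (1 / t ^ 2) + 2 * Real.exp (-(2 * (1 / l * v))) := by
          have h4 : Real.exp (-(2 * (1 / l * v))) = Real.exp (-(v / l)) ^ 2 := by
            rw [← Real.exp_nat_mul]
            congr 1
            push_cast
            ring
          have h5 : 1 / t ^ 2 = (1 / |t|) ^ 2 := by
            rw [div_pow, one_pow, sq_abs]
          rw [h4, h5]
          nlinarith [sq_nonneg (1 / |t| - Real.exp (-(v / l)))]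
        have e1 : Real.exp (-(η * v)) ^ 2 = Real.exp (-(2 * (η * v))) := by
          rw [← Real.exp_nat_mul]
          congr 1
          push_cast
          ring
        have e2 : Real.exp (-(2 * (η * v))) ≤ 1 := by
          refine Real.exp_le_one_iff.2 ?_
          have : 0 ≤ η * v := by positivity
          linarith
        calc (C / l * (v * (1 / |t| + Real.exp (-(v / l))) * Real.exp (-(η * v)))) ^ 2
            = C ^ 2 / l ^ 2 * (v ^ 2 * (1 / |t| + Real.exp (-(v / l))) ^ 2 *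
              Real.exp (-(2 * (η * v)))) := by
              rw [← e1]
              ring
          _ ≤ C ^ 2 / l ^ 2 * (v ^ 2 * (2 * (1 / t ^ 2) + 2 * Real.exp (-(2 * (1 / l * v)))) *
              Real.exp (-(2 * (η * v)))) := by
              gcongr
          _ = C ^ 2 / l ^ 2 * (2 * (1 / t ^ 2) * (v ^ 2 * Real.exp (-(2 * (η * v)))) +
              2 * ((v ^ 2 * Real.exp (-(2 * (1 / l * v)))) * Real.exp (-(2 * (η * v))))) := by ring
          _ ≤ C ^ 2 / l ^ 2 * (2 * (1 / t ^ 2) * (2 / η ^ 2 * Real.exp (-(η * v))) +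
              2 * ((2 / (1 / l) ^ 2 * Real.exp (-(1 / l * v))) * 1)) := by
              have m1 := ms_sq_exp hη hv
              have m2 := ms_sq_exp (show 0 < 1 / l by positivity) hv
              gcongr
          _ = K1 * Real.exp (-(η * v)) + K2 * Real.exp (-(1 / l * v)) := by
              rw [hK1, hK2]
              field_simp
              ring
    · rw [h4_F_zero _ _ (lt_of_not_ge hv), norm_zero,
        Set.indicator_of_notMem (show v ∉ Set.Ici (0 : ℝ) from hv),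
        Set.indicator_of_notMem (show v ∉ Set.Ici (0 : ℝ) from hv)]
      norm_num
  obtain ⟨i1, i2⟩ := h4_ind_int (K := K1) hη
  obtain ⟨j1, j2⟩ := h4_ind_int (K := K2) (show 0 < 1 / l by positivity)
  have hint : Integrable (fun v => ‖h4F (fun n => rt y t n * (Real.log n : ℂ)) η v‖ ^ 2) :=
    (i1.add j1).mono' ((h4_F_meas _ η).norm.pow_const 2).aestronglyMeasurable
      (Filter.Eventually.of_forall fun v => by
        rw [Real.norm_of_nonneg (by positivity)]
        exact hpt v)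
  refine (integral_mono hint (i1.add j1) hpt).trans (le_of_eq ?_)
  have : ∫ v, ((Set.Ici (0 : ℝ)).indicator (fun v => K1 * Real.exp (-(η * v))) v +
      (Set.Ici (0 : ℝ)).indicator (fun v => K2 * Real.exp (-(1 / l * v))) v) = K1 / η + K2 / (1 / l) := by
    rw [integral_add i1 j1, i2, j2]
  simp only [Pi.add_apply]
  rw [this, hK1, hK2]
  field_simp
  ring

theorem st_MS (hPS : ST_PS) (hLL : ST_LL) (hTA : ST_TA) : ST_MS := by
  obtain ⟨Cb, hCb, hb⟩ := ms_b hPS
  obtain ⟨c, hc, l0, hl0, hLL'⟩ := hLL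
  obtain ⟨Ct, hCt, hTA'⟩ := hTA
  set K : ℝ := Cb / c ^ 2 + Ct with hK
  have hKpos : 0 < K := by positivity
  refine ⟨Real.exp 1 * Real.sqrt K, by positivity, min l0 1, by positivity, ?_⟩
  intro A U hA hU
  obtain ⟨y1, hy1, hb'⟩ := hb A hA
  obtain ⟨y2, hy2, hLL''⟩ := hLL' A hA
  refine ⟨max y1 y2, hy1.trans (le_max_left _ _), ?_⟩
  intro y x t hy hlx hx1 htU htA
  have hyy1 : y1 ≤ y := (le_max_left _ _).trans hy
  have hyy2 : y2 ≤ y := (le_max_right _ _).trans hy
  have hy2' : 2 ≤ y := hy1.trans hyy1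
  have hy' : (2 : ℝ) ≤ y := by exact_mod_cast hy2'
  set l := Real.log y with hldef
  have hl : 0 < l := Real.log_pos (by linarith)
  set X := Real.log x with hX
  have hX0 : 0 < X := by linarith
  set η : ℝ := 1 / X with hη
  have hη0 : 0 < η := by positivity
  have hη1 : η ≤ 1 := by
    rw [hη, div_le_one hX0]
    exact hx1
  have hU0 : 0 < U := by linarith
  have hg := rt_cm hy2' t
  have hlX0 : l ≤ l0 * X := hlx.trans (mul_le_mul_of_nonneg_right (min_le_left _ _) hX0.le)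
  have hlX1 : l ≤ X := by
    have := hlx.trans (mul_le_mul_of_nonneg_right (min_le_right _ _) hX0.le)
    linarith
  have hr1 : 1 ≤ X / l := by
    rw [le_div_iff₀ hl]
    linarith
  have ht1 : 1 ≤ |t| := by nlinarith
  have ht0 : t ≠ 0 := by
    intro h
    rw [h, abs_zero] at ht1
    linarith
  -- the two functions
  have ha : ∀ n, ‖rL y t n‖ ≤ Λ n := norm_rL_le y t
  set K0 : ℝ := Real.log 4 + 4 with hK0
  have hKv : ∀ v : ℝ, 0 ≤ v → ‖Sg (rL y t) (Real.exp v)‖ ≤ K0 * Real.exp ((1 + η - η) * v) := by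
    intro v _
    have := h4_sum_vM ha v
    rwa [show (1 + η - η) * v = v by ring]
  obtain ⟨q1, -⟩ := h4_F_int hη0 hKv
  obtain ⟨q2, -⟩ := h4_F_sq hη0 hKv
  obtain ⟨r1, r2⟩ := h4_plancherel _ q1 q2
  have hgr := ms_growth hg hη0
  obtain ⟨f1, -⟩ := h4_F_int (by positivity) hgr
  obtain ⟨f2, -⟩ := h4_F_sq (by positivity) hgr
  obtain ⟨p1, p2⟩ := h4_plancherel _ f1 f2
  have hb'' := hb' y η t hyy1 hη0 ht1 (by
    have : |t| ≤ 2 * (|t| + U) := by linarith
    linarith)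
  -- pointwise comparison
  have hsr : ∀ ξ : ℝ, ((((1 + η : ℝ) : ℂ) + ((2 * Real.pi * ξ : ℝ) : ℂ) * Complex.I)).re = 1 + η := by
    intro ξ
    simp
  have hpt : ∀ ξ ∈ {ξ : ℝ | U < |2 * Real.pi * ξ|}ᶜ, ‖𝓕 (h4F (rL y t) η) ξ‖ ^ 2 ≤
      1 / c ^ 2 * ‖𝓕 (h4F (fun n => rt y t n * (Real.log n : ℂ)) η) ξ‖ ^ 2 := by
    intro ξ hξ
    have hξ' : |2 * Real.pi * ξ| ≤ U := not_lt.1 hξ
    have hrL : rL y t = fun n => rt y t n * (Λ n : ℂ) := rfl
    rw [hrL, h4_F_fourier hη0 (ms_summable hg hη0 (Complex.ofReal_re _)).2 ξ,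
      h4_F_fourier hη0 (ms_conv hg hη0 (Complex.ofReal_re _)).1 ξ, (ms_conv hg hη0 (hsr ξ)).2]
    have hlow : c ≤ ‖LSeries (rt y t) (((1 + η : ℝ) : ℂ) + ((2 * Real.pi * ξ : ℝ) : ℂ) * Complex.I)‖ := by
      have h1 : LSeries (rt y t) (((1 + η : ℝ) : ℂ) + ((2 * Real.pi * ξ : ℝ) : ℂ) * Complex.I) =
          Gv (ro y) η (t + 2 * Real.pi * ξ) := by
        rw [← Gv_rt]
        rfl
      rw [h1]
      have h2 : |t| - U ≤ |t + 2 * Real.pi * ξ| := by
        have := abs_sub_abs_le_abs_sub t (-(2 * Real.pi * ξ))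
        rw [abs_neg, sub_neg_eq_add] at this
        linarith
      have h3 : |t + 2 * Real.pi * ξ| ≤ |t| + U := (abs_add_le _ _).trans (by linarith)
      have h4 : (X / l) ^ 2 ≤ |t + 2 * Real.pi * ξ| := by linarith
      refine hLL'' y η _ hyy2 hη0 ?_ ?_ ?_ ?_
      · rw [hη, one_div, inv_mul_le_iff₀ hX0]
        linarith
      · nlinarith
      · linarith
      · have h5 : (η * l) ^ 2 = ((X / l) ^ 2)⁻¹ := by
          rw [hη]
          field_simp
        rw [← hldef, h5, ← div_eq_mul_inv, le_div_iff₀ (by positivity)]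
        linarith
    have e1 : ‖LSeries (fun n => rt y t n * (Λ n : ℂ))
        (((1 + η : ℝ) : ℂ) + ((2 * Real.pi * ξ : ℝ) : ℂ) * Complex.I) *
        LSeries (rt y t) (((1 + η : ℝ) : ℂ) + ((2 * Real.pi * ξ : ℝ) : ℂ) * Complex.I) /
        (((1 + η : ℝ) : ℂ) + ((2 * Real.pi * ξ : ℝ) : ℂ) * Complex.I)‖ ^ 2 =
        ‖LSeries (rt y t) (((1 + η : ℝ) : ℂ) + ((2 * Real.pi * ξ : ℝ) : ℂ) * Complex.I)‖ ^ 2 *
        ‖LSeries (fun n => rt y t n * (Λ n : ℂ))
        (((1 + η : ℝ) : ℂ) + ((2 * Real.pi * ξ : ℝ) : ℂ) * Complex.I) /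
        (((1 + η : ℝ) : ℂ) + ((2 * Real.pi * ξ : ℝ) : ℂ) * Complex.I)‖ ^ 2 := by
      rw [norm_div, norm_div, norm_mul]
      ring
    rw [e1]
    have h6 : c ^ 2 ≤ ‖LSeries (rt y t)
        (((1 + η : ℝ) : ℂ) + ((2 * Real.pi * ξ : ℝ) : ℂ) * Complex.I)‖ ^ 2 := by gcongr
    have h7 := mul_le_mul_of_nonneg_right h6 (sq_nonneg ‖LSeries (fun n => rt y t n * (Λ n : ℂ))
        (((1 + η : ℝ) : ℂ) + ((2 * Real.pi * ξ : ℝ) : ℂ) * Complex.I) /
        (((1 + η : ℝ) : ℂ) + ((2 * Real.pi * ξ : ℝ) : ℂ) * Complex.I)‖)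
    rw [one_div, ← div_eq_inv_mul, le_div_iff₀ (by positivity), mul_comm]
    exact h7
  -- the integral
  have hmeas : MeasurableSet {ξ : ℝ | U < |2 * Real.pi * ξ|} := by
    refine measurableSet_lt measurable_const ?_
    fun_prop
  have hJ : ∫ v, ‖h4F (rL y t) η v‖ ^ 2 ≤ K * X * ((X / l) ^ 2 / t ^ 2 + l / X + 1 / U) := by
    rw [← r2, ← integral_add_compl hmeas r1]
    have h1 : ∫ ξ in {ξ : ℝ | U < |2 * Real.pi * ξ|}, ‖𝓕 (h4F (rL y t) η) ξ‖ ^ 2 ≤ Ct / (η * U) := by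
      have h2 := hTA' (rL y t) η U ha hη0 hη1 hU
      refine le_trans (le_of_eq ?_) h2
      refine setIntegral_congr_fun hmeas fun ξ _ => ?_
      have h3 := h4_F_fourier hη0 (ms_summable hg hη0 (Complex.ofReal_re _)).2 ξ
      exact congrArg (fun z : ℂ => ‖z‖ ^ 2) h3
    have h2 : ∫ ξ in {ξ : ℝ | U < |2 * Real.pi * ξ|}ᶜ, ‖𝓕 (h4F (rL y t) η) ξ‖ ^ 2 ≤
        1 / c ^ 2 * (Cb * (1 / (η ^ 3 * t ^ 2 * l ^ 2) + l)) := by
      calc ∫ ξ in {ξ : ℝ | U < |2 * Real.pi * ξ|}ᶜ, ‖𝓕 (h4F (rL y t) η) ξ‖ ^ 2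
          ≤ ∫ ξ in {ξ : ℝ | U < |2 * Real.pi * ξ|}ᶜ,
            1 / c ^ 2 * ‖𝓕 (h4F (fun n => rt y t n * (Real.log n : ℂ)) η) ξ‖ ^ 2 :=
            setIntegral_mono_on r1.integrableOn (p1.const_mul _).integrableOn hmeas.compl hpt
        _ ≤ ∫ ξ, 1 / c ^ 2 * ‖𝓕 (h4F (fun n => rt y t n * (Real.log n : ℂ)) η) ξ‖ ^ 2 :=
            setIntegral_le_integral (p1.const_mul _) (Filter.Eventually.of_forall fun ξ => by positivity)
        _ = 1 / c ^ 2 * ∫ v, ‖h4F (fun n => rt y t n * (Real.log n : ℂ)) η v‖ ^ 2 := by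
            rw [integral_const_mul, p2]
        _ ≤ _ := mul_le_mul_of_nonneg_left hb'' (by positivity)
    refine (add_le_add h1 h2).trans ?_
    have e1 : Ct / (η * U) = Ct * X * (1 / U) := by
      rw [hη]
      field_simp
    have e2 : 1 / c ^ 2 * (Cb * (1 / (η ^ 3 * t ^ 2 * l ^ 2) + l)) =
        (Cb / c ^ 2) * X * ((X / l) ^ 2 / t ^ 2 + l / X) := by
      rw [hη]
      field_simp
    rw [e1, e2, hK]
    have p1 : 0 ≤ Ct * X * ((X / l) ^ 2 / t ^ 2 + l / X) := by positivity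
    have p2 : 0 ≤ (Cb / c ^ 2) * X * (1 / U) := by positivity
    nlinarith
  -- Cauchy-Schwarz
  set Q : ℝ := (X / l) ^ 2 / t ^ 2 + l / X + 1 / U with hQ
  have hQ0 : 0 < Q := by positivity
  set lam : ℝ := Real.sqrt (K * Q) with hlam
  have hlam0 : 0 < lam := Real.sqrt_pos.2 (by positivity)
  have hlam2 : lam ^ 2 = K * Q := Real.sq_sqrt (by positivity)
  have hcs : ∀ v ∈ Set.uIoc (0 : ℝ) X, ‖Sv y t (Real.exp v)‖ * Real.exp (-v) ≤
      Real.exp 1 * ((lam + ‖h4F (rL y t) η v‖ ^ 2 / lam) / 2) := by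
    intro v hv
    rw [Set.uIoc_of_le hX0.le] at hv
    have h1 : ‖Sv y t (Real.exp v)‖ * Real.exp (-v) = ‖h4F (rL y t) η v‖ * Real.exp (η * v) := by
      unfold h4F Sv
      rw [norm_mul, Complex.norm_real, Real.norm_of_nonneg (Real.exp_pos _).le, mul_assoc,
        ← Real.exp_add]
      congr 2
      ring
    have h2 : Real.exp (η * v) ≤ Real.exp 1 := by
      refine Real.exp_le_exp.2 ?_
      rw [hη, one_div, inv_mul_le_iff₀ hX0]
      linarith [hv.2]
    have h3 : ‖h4F (rL y t) η v‖ ≤ (lam + ‖h4F (rL y t) η v‖ ^ 2 / lam) / 2 := by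
      have h4 : 0 ≤ (lam - ‖h4F (rL y t) η v‖) ^ 2 / lam := by positivity
      have h5 : (lam - ‖h4F (rL y t) η v‖) ^ 2 / lam =
          lam + ‖h4F (rL y t) η v‖ ^ 2 / lam - 2 * ‖h4F (rL y t) η v‖ := by
        field_simp
        ring
      linarith
    rw [h1, mul_comm]
    exact mul_le_mul h2 h3 (norm_nonneg _) (Real.exp_pos _).le
  have hint2 : Integrable (fun v => ‖h4F (rL y t) η v‖ ^ 2) :=
    (memLp_two_iff_integrable_sq_norm (h4_F_meas _ η).aestronglyMeasurable).1 q2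
  have hI1 : IntervalIntegrable (fun v => Real.exp 1 * ((lam + ‖h4F (rL y t) η v‖ ^ 2 / lam) / 2))
      volume 0 X := by
    refine IntervalIntegrable.const_mul ?_ _
    refine IntervalIntegrable.div_const ?_ _
    refine IntervalIntegrable.add intervalIntegrable_const ?_
    exact (hint2.div_const lam).intervalIntegrable
  have hmS : Measurable (fun v : ℝ => ‖Sv y t (Real.exp v)‖ * Real.exp (-v)) := by
    unfold Sv
    exact ((h4_Sg_meas _).comp Real.measurable_exp).norm.mul (by fun_prop)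
  have hI0 : IntervalIntegrable (fun v => ‖Sv y t (Real.exp v)‖ * Real.exp (-v)) volume 0 X := by
    refine hI1.mono_fun' hmS.aestronglyMeasurable ?_
    filter_upwards [ae_restrict_mem measurableSet_uIoc] with v hv
    rw [Real.norm_of_nonneg (by positivity)]
    exact hcs v hv
  have hfin : ∫ v in (0 : ℝ)..X, ‖Sv y t (Real.exp v)‖ * Real.exp (-v) ≤
      ∫ v in (0 : ℝ)..X, Real.exp 1 * ((lam + ‖h4F (rL y t) η v‖ ^ 2 / lam) / 2) := by
    refine intervalIntegral.integral_mono_ae_restrict hX0.le hI0 hI1 ?_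
    filter_upwards [ae_restrict_mem measurableSet_Icc, ae_restrict_of_ae (s := Set.Icc 0 X)
      (show ∀ᵐ v : ℝ, v ≠ 0 by simp [ae_iff, measure_singleton])] with v hv hv0
    refine hcs v ?_
    rw [Set.uIoc_of_le hX0.le]
    exact ⟨lt_of_le_of_ne hv.1 (Ne.symm hv0), hv.2⟩
  refine hfin.trans ?_
  have hval : ∫ v in (0 : ℝ)..X, ‖h4F (rL y t) η v‖ ^ 2 ≤ K * X * Q := by
    rw [intervalIntegral.integral_of_le hX0.le]
    refine (setIntegral_le_integral hint2 (Filter.Eventually.of_forall fun v => by positivity)).trans hJ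
  rw [intervalIntegral.integral_const_mul, intervalIntegral.integral_div,
    intervalIntegral.integral_add intervalIntegrable_const (hint2.div_const lam).intervalIntegrable,
    intervalIntegral.integral_const, intervalIntegral.integral_div, smul_eq_mul, sub_zero]
  have h1 : (∫ v in (0 : ℝ)..X, ‖h4F (rL y t) η v‖ ^ 2) / lam ≤ X * lam := by
    rw [div_le_iff₀ hlam0]
    calc ∫ v in (0 : ℝ)..X, ‖h4F (rL y t) η v‖ ^ 2 ≤ K * X * Q := hval
      _ = X * (K * Q) := by ring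
      _ = X * lam * lam := by rw [← hlam2]; ring
  calc Real.exp 1 * ((X * lam + (∫ v in (0 : ℝ)..X, ‖h4F (rL y t) η v‖ ^ 2) / lam) / 2)
      ≤ Real.exp 1 * ((X * lam + X * lam) / 2) := by gcongr
    _ = Real.exp 1 * (X * lam) := by ring
    _ = Real.exp 1 * Real.sqrt K * X * Real.sqrt Q := by
        rw [hlam, Real.sqrt_mul hKpos.le]
        ring

end Pool.Agent.Helper99.AA
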