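import Pool.Agent.Helper99.AA.Basic

set_option autoImplicit false

/-!
Project AA, row PT: the pointwise bound for the twisted sums of the von Mangoldt function.
-/

open Finset MeasureTheory
open scoped BigOperators Nat ArithmeticFunction.vonMangoldt

namespace Pool.Agent.Helper99.AA

open Pool.Agent.Helper40.MR

/-- the prime powers of small primes -/
theorem pt_rough (y : ℕ) (x t : ℝ) (hx : 1 ≤ x) :
    ‖Sg (fun n => (Λ n : ℂ) * nit n t) x - Sv y t x‖ ≤ Real.log 4 * y + 2 * Real.sqrt x * Real.log x := by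
  classical
  have h1 : ∀ n ∈ Icc 1 ⌊x⌋₊, ‖(Λ n : ℂ) * nit n t - rL y t n‖ ≤
      (if n.Prime ∧ n ≤ y then Λ n else 0) + (if ¬ n.Prime then Λ n else 0) := by
    intro n _
    have h0 : 0 ≤ Λ n := ArithmeticFunction.vonMangoldt_nonneg
    have e : (Λ n : ℂ) * nit n t - rL y t n = (Λ n : ℂ) * nit n t * (1 - ro y n) := by
      unfold rL rt
      ring
    rw [e, norm_mul, norm_mul, norm_nit, mul_one, Complex.norm_real, Real.norm_of_nonneg h0]
    by_cases hr : Ro y n
    · rw [ro_pos hr, sub_self, norm_zero, mul_zero]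
      positivity
    · rw [ro_neg hr, sub_zero, norm_one, mul_one]
      by_cases hp : n.Prime
      · have : n ≤ y := by
          by_contra hny
          exact hr ((Ro_prime hp).2 (not_le.1 hny))
        rw [if_pos ⟨hp, this⟩, if_neg (not_not.2 hp), add_zero]
      · rw [if_pos hp]
        have : 0 ≤ (if n.Prime ∧ n ≤ y then Λ n else 0) := by positivity
        linarith
  have h2 : ‖Sg (fun n => (Λ n : ℂ) * nit n t) x - Sv y t x‖ ≤
      ∑ n ∈ Icc 1 ⌊x⌋₊, ((if n.Prime ∧ n ≤ y then Λ n else 0) + (if ¬ n.Prime then Λ n else 0)) := by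
    unfold Sv Sg
    rw [← Finset.sum_sub_distrib]
    exact (norm_sum_le _ _).trans (Finset.sum_le_sum h1)
  refine h2.trans ?_
  rw [Finset.sum_add_distrib]
  refine add_le_add ?_ ?_
  · have h3 : ∑ n ∈ Icc 1 ⌊x⌋₊, (if n.Prime ∧ n ≤ y then Λ n else 0) ≤ Chebyshev.theta y := by
      unfold Chebyshev.theta
      rw [← Finset.sum_filter, Nat.floor_natCast]
      have hsub : (Icc 1 ⌊x⌋₊).filter (fun n => n.Prime ∧ n ≤ y) ⊆ (Ioc 0 y).filter Nat.Prime := by
        intro n hn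
        obtain ⟨a1, a2, a3⟩ := Finset.mem_filter.1 hn
        exact Finset.mem_filter.2 ⟨Finset.mem_Ioc.2 ⟨a2.pos, a3⟩, a2⟩
      refine le_trans (le_of_eq ?_) (Finset.sum_le_sum_of_subset_of_nonneg hsub ?_)
      · refine Finset.sum_congr rfl fun n hn => ?_
        exact ArithmeticFunction.vonMangoldt_apply_prime (Finset.mem_filter.1 hn).2.1
      · intro n hn _
        have := (Finset.mem_filter.1 hn).2.one_lt
        exact Real.log_nonneg (by exact_mod_cast this.le)
    exact h3.trans (Chebyshev.theta_le_log4_mul_x (Nat.cast_nonneg y))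
  · have h4 := Chebyshev.psi_sub_theta_eq_sum_not_prime x
    have h5 := Chebyshev.psi_sub_theta_le hx
    rw [← Finset.sum_filter]
    have : Icc 1 ⌊x⌋₊ = Ioc 0 ⌊x⌋₊ := by
      ext n
      simp only [Finset.mem_Icc, Finset.mem_Ioc]
      omega
    rw [this]
    linarith

theorem st_PT (hMS : ST_MS) (hHS : ST_HS) (hAV : ST_AV) : ST_PT := by
  obtain ⟨C1, hC1, l, hl, hMS'⟩ := hMS
  obtain ⟨C2, hC2, hHS'⟩ := hHS
  obtain ⟨C3, hC3, hAV'⟩ := hAV
  intro A ε hA hε
  -- the parameters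
  set q : ℝ := (ε / (8 * (C3 * C1))) ^ 2 / 3 with hq
  have hq0 : 0 < q := by positivity
  set h : ℝ := max 1 (8 * C3 / ε) with hh
  have hh1 : 1 ≤ h := le_max_left _ _
  have hhε : C3 / h ≤ ε / 8 := by
    have h1 : 8 * C3 / ε ≤ h := le_max_right _ _
    have h0 : 0 < h := by linarith
    rw [div_le_iff₀ h0]
    rw [div_le_iff₀ hε] at h1
    linarith
  set B : ℝ := 2 + 1 / l + 1 / q + 16 * C2 / ε with hB
  have hB2 : 2 ≤ B := by
    have : 0 ≤ 1 / l + 1 / q + 16 * C2 / ε := by positivity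
    linarith
  have hB0 : 0 < B := by linarith
  have hBl : 1 / B ≤ l := by
    have h1 : 1 / l ≤ B := by
      have : 0 ≤ 2 + 1 / q + 16 * C2 / ε := by positivity
      linarith
    rw [div_le_iff₀ hB0]
    rw [div_le_iff₀ hl] at h1
    linarith
  have hBq : 1 / B ≤ q := by
    have h1 : 1 / q ≤ B := by
      have : 0 ≤ 2 + 1 / l + 16 * C2 / ε := by positivity
      linarith
    rw [div_le_iff₀ hB0]
    rw [div_le_iff₀ hq0] at h1
    linarith
  have hBε : C2 * (1 / B) ≤ ε / 16 := by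
    have h1 : 16 * C2 / ε ≤ B := by
      have : 0 ≤ 2 + 1 / l + 1 / q := by positivity
      linarith
    rw [mul_one_div, div_le_iff₀ hB0]
    rw [div_le_iff₀ hε] at h1
    linarith
  set U : ℝ := max 1 (1 / q) with hU
  have hU1 : 1 ≤ U := le_max_left _ _
  have hUq : 1 / U ≤ q := by
    have h1 : 1 / q ≤ U := le_max_right _ _
    have h0 : 0 < U := by linarith
    rw [div_le_iff₀ h0]
    rw [div_le_iff₀ hq0] at h1
    linarith
  set T : ℝ := U + 4 * B ^ 2 + (4 * B ^ 2 / q) + 64 * C2 * B ^ 2 / ε with hT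
  have hT1 : 1 ≤ T := by
    have : 0 ≤ 4 * B ^ 2 + (4 * B ^ 2 / q) + 64 * C2 * B ^ 2 / ε := by positivity
    linarith
  set A' : ℝ := 4 * B * (A + 1) with hA'
  have hA'1 : 1 ≤ A' := by
    have h1 : 1 * 1 ≤ 4 * B * (A + 1) := by
      refine mul_le_mul ?_ ?_ (by norm_num) (by positivity)
      · linarith only [hB2]
      · linarith only [hA]
    rw [hA']
    linarith only [h1]
  obtain ⟨y1, hy1, hMS2⟩ := hMS' A' U hA'1 hU1
  obtain ⟨y2, hy2, hHS2⟩ := hHS' A' hA'1
  obtain ⟨y3, x3, hAV2⟩ := hAV' h hh1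
  -- large x
  have hlim1 : Filter.Tendsto (fun x : ℝ => x ^ (1 / (2 * B))) Filter.atTop Filter.atTop :=
    tendsto_rpow_atTop (by positivity)
  have hlim2 : ∀ᶠ x : ℝ in Filter.atTop, Real.log 4 * Real.sqrt x + 2 * Real.sqrt x * Real.log x ≤ ε / 2 * x := by
    have h1 : Filter.Tendsto (fun x : ℝ => Real.log x * x ^ (-(1 / 2) : ℝ)) Filter.atTop (nhds 0) := by
      have h2 := (isLittleO_log_rpow_atTop (show (0 : ℝ) < 1 / 2 by norm_num)).tendsto_div_nhds_zero
      refine h2.congr' ?_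
      filter_upwards [Filter.eventually_gt_atTop 0] with x hx
      rw [Real.rpow_neg hx.le, div_eq_mul_inv]
    have h3 : Filter.Tendsto (fun x : ℝ => x ^ (-(1 / 2) : ℝ)) Filter.atTop (nhds 0) :=
      tendsto_rpow_neg_atTop (by norm_num)
    have h4 := ((h3.const_mul (Real.log 4)).add (h1.const_mul 2))
    simp only [mul_zero, add_zero] at h4
    have h5 := h4.eventually (gt_mem_nhds (show (0 : ℝ) < ε / 2 by positivity))
    filter_upwards [h5, Filter.eventually_gt_atTop 0] with x hx5 hx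
    have e1 : Real.sqrt x = x ^ (-(1 / 2) : ℝ) * x := by
      rw [Real.sqrt_eq_rpow]
      nth_rewrite 3 [← Real.rpow_one x]
      rw [← Real.rpow_add hx]
      norm_num
    rw [e1]
    have h6 := mul_le_mul_of_nonneg_right hx5.le hx.le
    calc Real.log 4 * (x ^ (-(1 / 2) : ℝ) * x) + 2 * (x ^ (-(1 / 2) : ℝ) * x) * Real.log x
        = (Real.log 4 * x ^ (-(1 / 2) : ℝ) + 2 * (Real.log x * x ^ (-(1 / 2) : ℝ))) * x := by ring
      _ ≤ ε / 2 * x := h6
  have hev : ∀ᶠ x : ℝ in Filter.atTop,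
      (y1 : ℝ) + y2 + y3 + 2 ≤ x ^ (1 / (2 * B)) ∧ x3 ≤ x ∧ 3 ≤ x ∧
      Real.log 4 * Real.sqrt x + 2 * Real.sqrt x * Real.log x ≤ ε / 2 * x ∧
      2 + 2 * U + 2 ≤ x := by
    filter_upwards [hlim1.eventually_ge_atTop ((y1 : ℝ) + y2 + y3 + 2), Filter.eventually_ge_atTop x3,
      Filter.eventually_ge_atTop 3, hlim2, Filter.eventually_ge_atTop (2 + 2 * U + 2)] with x a1 a2 a3 a4 a5
    exact ⟨a1, a2, a3, a4, a5⟩
  obtain ⟨x0, hx0⟩ := Filter.eventually_atTop.1 hev
  refine ⟨T, hT1, x0, ?_⟩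
  intro x t hx hTt htx
  obtain ⟨b1, b2, b3, b4, b5⟩ := hx0 x hx
  have hxpos : 0 < x := by linarith
  have hx1 : 1 ≤ x := by linarith
  set X := Real.log x with hX
  have hX1 : 1 ≤ X := by
    rw [hX, Real.le_log_iff_exp_le hxpos]
    have := Real.exp_one_lt_d9
    linarith
  have hX0 : 0 < X := by linarith
  have hU0 : 0 < U := by linarith
  have ht1 : 1 ≤ |t| := hT1.trans hTt
  have ht0 : 0 < |t| := by linarith
  -- the parameter y
  set y : ℕ := ⌊x ^ (1 / B)⌋₊ with hy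
  have hyp : 0 ≤ x ^ (1 / B) := by positivity
  have hyle : (y : ℝ) ≤ x ^ (1 / B) := Nat.floor_le hyp
  have hylt : x ^ (1 / B) < y + 1 := Nat.lt_floor_add_one _
  have hsq : x ^ (1 / B) = x ^ (1 / (2 * B)) * x ^ (1 / (2 * B)) := by
    rw [← Real.rpow_add hxpos]
    congr 1
    field_simp
    norm_num
  have hz2 : 2 ≤ x ^ (1 / (2 * B)) := by
    have : (0 : ℝ) ≤ (y1 : ℝ) + y2 + y3 := by positivity
    linarith
  have hyge : x ^ (1 / (2 * B)) ≤ y := by
    have h1 : 2 * x ^ (1 / (2 * B)) ≤ x ^ (1 / (2 * B)) * x ^ (1 / (2 * B)) :=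
      mul_le_mul_of_nonneg_right hz2 (by positivity)
    linarith only [h1, hylt, hsq, hz2]
  have hyR : (2 : ℝ) ≤ y := hz2.trans hyge
  have hyy1 : y1 ≤ y := by
    have : (y1 : ℝ) ≤ y := by
      have h2 : (0 : ℝ) ≤ (y2 : ℝ) + y3 := by positivity
      linarith
    exact_mod_cast this
  have hyy2 : y2 ≤ y := by
    have : (y2 : ℝ) ≤ y := by
      have h2 : (0 : ℝ) ≤ (y1 : ℝ) + y3 := by positivity
      linarith
    exact_mod_cast this
  have hyy3 : y3 ≤ y := by
    have : (y3 : ℝ) ≤ y := by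
      have h2 : (0 : ℝ) ≤ (y1 : ℝ) + y2 := by positivity
      linarith
    exact_mod_cast this
  have hy2n : 2 ≤ y := hy1.trans hyy1
  set ly := Real.log y with hly
  have hly0 : 0 < ly := Real.log_pos (by linarith)
  have hly1 : ly ≤ X / B := by
    calc ly ≤ Real.log (x ^ (1 / B)) := Real.log_le_log (by linarith) hyle
      _ = X / B := by
          rw [Real.log_rpow hxpos]
          ring
  have hly2 : X / (2 * B) ≤ ly := by
    calc X / (2 * B) = Real.log (x ^ (1 / (2 * B))) := by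
          rw [Real.log_rpow hxpos]
          ring
      _ ≤ ly := Real.log_le_log (by positivity) hyge
  have hr1 : ly / X ≤ 1 / B := by
    rw [div_le_iff₀ hX0]
    calc ly ≤ X / B := hly1
      _ = 1 / B * X := by ring
  have hr2 : X / ly ≤ 2 * B := by
    rw [div_le_iff₀ hly0]
    rw [div_le_iff₀ (by positivity)] at hly2
    linarith
  have hr2' : (X / ly) ^ 2 ≤ 4 * B ^ 2 := by
    have h0 : 0 ≤ X / ly := by positivity
    calc (X / ly) ^ 2 ≤ (2 * B) ^ 2 := by gcongr
      _ = 4 * B ^ 2 := by ring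
  have hysq : (y : ℝ) ^ 2 ≤ Real.sqrt x ^ 2 := by
    have h1 : x ^ (1 / B) ≤ Real.sqrt x := by
      rw [Real.sqrt_eq_rpow]
      refine Real.rpow_le_rpow_of_exponent_le hx1 ?_
      exact one_div_le_one_div_of_le (by norm_num) hB2
    have h2 : (y : ℝ) ≤ Real.sqrt x := hyle.trans h1
    gcongr
  have hysqrt : (y : ℝ) ≤ Real.sqrt x := by
    exact (pow_le_pow_iff_left₀ (by positivity) (Real.sqrt_nonneg x) (by norm_num)).1 hysq
  have hysq' : (y : ℝ) ^ 2 ≤ x := by
    rwa [Real.sq_sqrt hxpos.le] at hysq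
  have hyx : (y : ℝ) ≤ x := by
    have h1 : (y : ℝ) ≤ (y : ℝ) ^ 2 := by
      rw [sq]
      exact le_mul_of_one_le_left (by linarith only [hyR]) (by linarith only [hyR])
    exact h1.trans hysq'
  -- the size of t
  have htA : 2 + 2 * (|t| + U) ≤ (y : ℝ) ^ A' := by
    have h1 : x ^ (2 * (A + 1)) ≤ (y : ℝ) ^ A' := by
      calc x ^ (2 * (A + 1)) = (x ^ (1 / (2 * B))) ^ A' := by
            rw [← Real.rpow_mul hxpos.le]
            congr 1
            rw [hA']
            field_simp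
            norm_num
        _ ≤ (y : ℝ) ^ A' := Real.rpow_le_rpow (by positivity) hyge (by positivity)
    refine le_trans ?_ h1
    have h2 : x ^ (2 * (A + 1)) = x ^ A * x ^ (A + 2) := by
      rw [← Real.rpow_add hxpos]
      congr 1
      ring
    have h3 : x ≤ x ^ (A + 2) := by
      nth_rewrite 1 [← Real.rpow_one x]
      exact Real.rpow_le_rpow_of_exponent_le hx1 (by linarith)
    have h4 : 1 ≤ x ^ A := Real.one_le_rpow hx1 (by linarith)
    rw [h2]
    have h5 : 2 + 2 * U + 2 ≤ x ^ (A + 2) := b5.trans h3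
    have h6 : x ^ A * (2 + 2 * U + 2) ≤ x ^ A * x ^ (A + 2) :=
      mul_le_mul_of_nonneg_left h5 (by linarith only [h4])
    have h7 : 1 * (2 + 2 * U) ≤ x ^ A * (2 + 2 * U) :=
      mul_le_mul_of_nonneg_right h4 (by linarith only [hU0])
    have h8 : 2 * |t| ≤ 2 * x ^ A := by linarith only [htx]
    linarith only [h6, h7, h8]
  have htA2 : 2 + |t| ≤ (y : ℝ) ^ A' := by linarith
  have hT2 : U + 4 * B ^ 2 ≤ |t| := by
    have : 0 ≤ (4 * B ^ 2 / q) + 64 * C2 * B ^ 2 / ε := by positivity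
    linarith
  have hT3 : 4 * B ^ 2 / q ≤ |t| := by
    have : 0 ≤ U + 4 * B ^ 2 + 64 * C2 * B ^ 2 / ε := by positivity
    linarith
  have hT4 : 64 * C2 * B ^ 2 / ε ≤ |t| := by
    have : 0 ≤ U + 4 * B ^ 2 + (4 * B ^ 2 / q) := by positivity
    linarith
  -- the three inputs
  have i1 := hMS2 y x t hyy1 (by
    calc Real.log y ≤ X / B := hly1
      _ = (1 / B) * X := by ring
      _ ≤ l * X := mul_le_mul_of_nonneg_right hBl hX0.le) hX1 (by
      have : U + (X / ly) ^ 2 ≤ |t| := by linarith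
      exact this) htA
  have i2 := hHS2 y x t hyy2 hysq' ht1 htA2
  have i3 := hAV2 y x (rL y t) hyy3 b2 hyx (norm_rL_le y t) (fun n hn => rL_small hy2n t hn)
  -- the square root
  have hroot : Real.sqrt ((X / ly) ^ 2 / t ^ 2 + ly / X + 1 / U) ≤ ε / (8 * (C3 * C1)) := by
    rw [Real.sqrt_le_left (by positivity)]
    have h1 : (X / ly) ^ 2 / t ^ 2 ≤ q := by
      have h2 : (X / ly) ^ 2 / t ^ 2 ≤ 4 * B ^ 2 / |t| := by
        rw [← sq_abs t]
        calc (X / ly) ^ 2 / |t| ^ 2 ≤ 4 * B ^ 2 / |t| ^ 2 := by gcongr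
          _ ≤ 4 * B ^ 2 / |t| := by
              refine div_le_div_of_nonneg_left (by positivity) ht0 ?_
              rw [sq]
              exact le_mul_of_one_le_left ht0.le ht1
      refine h2.trans ?_
      rw [div_le_iff₀ ht0]
      rw [div_le_iff₀ hq0] at hT3
      linarith
    have h3 : ly / X ≤ q := hr1.trans hBq
    calc (X / ly) ^ 2 / t ^ 2 + ly / X + 1 / U ≤ q + q + q := by linarith
      _ = (ε / (8 * (C3 * C1))) ^ 2 := by
          rw [hq]
          ring
  have hint : ∫ v in (0 : ℝ)..X, ‖Sv y t (Real.exp v)‖ * Real.exp (-v) ≤ C1 * X * (ε / (8 * (C3 * C1))) :=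
    i1.trans (mul_le_mul_of_nonneg_left hroot (by positivity))
  have hmain : X * ‖Sv y t x‖ ≤ X * (3 * ε / 8 * x) := by
    have j1 : ∑ d ∈ Icc 1 ⌊x⌋₊, Λ d * ‖Sv y t (x / d)‖ ≤
        C3 * x * (C1 * X * (ε / (8 * (C3 * C1)))) + C3 * x * X / h := by
      refine i3.trans ?_
      refine add_le_add ?_ le_rfl
      exact mul_le_mul_of_nonneg_left hint (by positivity)
    have j2 : C3 * x * (C1 * X * (ε / (8 * (C3 * C1)))) = X * (ε / 8 * x) := by
      field_simp
    have j3 : C3 * x * X / h ≤ X * (ε / 8 * x) := by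
      calc C3 * x * X / h = X * (C3 / h * x) := by ring
        _ ≤ X * (ε / 8 * x) := by gcongr
    have j4 : C2 * (x * X) * (ly / X + (X / ly) ^ 2 / |t|) ≤ X * (ε / 8 * x) := by
      have k1 : C2 * (ly / X) ≤ ε / 16 := (mul_le_mul_of_nonneg_left hr1 hC2.le).trans hBε
      have k2 : C2 * ((X / ly) ^ 2 / |t|) ≤ ε / 16 := by
        calc C2 * ((X / ly) ^ 2 / |t|) ≤ C2 * (4 * B ^ 2 / |t|) := by gcongr
          _ ≤ ε / 16 := by
              rw [← mul_div_assoc, div_le_iff₀ ht0]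
              rw [div_le_iff₀ hε] at hT4
              linarith
      calc C2 * (x * X) * (ly / X + (X / ly) ^ 2 / |t|)
          = X * ((C2 * (ly / X) + C2 * ((X / ly) ^ 2 / |t|)) * x) := by ring
        _ ≤ X * ((ε / 16 + ε / 16) * x) := by gcongr
        _ = X * (ε / 8 * x) := by ring
    calc X * ‖Sv y t x‖ ≤ ∑ d ∈ Icc 1 ⌊x⌋₊, Λ d * ‖Sv y t (x / d)‖ +
          C2 * (x * X) * (ly / X + (X / ly) ^ 2 / |t|) := i2
      _ ≤ (C3 * x * (C1 * X * (ε / (8 * (C3 * C1)))) + C3 * x * X / h) + X * (ε / 8 * x) :=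
          add_le_add j1 j4
      _ ≤ (X * (ε / 8 * x) + X * (ε / 8 * x)) + X * (ε / 8 * x) := by
          rw [j2]
          gcongr
      _ = X * (3 * ε / 8 * x) := by ring
  have hSv : ‖Sv y t x‖ ≤ 3 * ε / 8 * x := le_of_mul_le_mul_left hmain hX0
  have hro := pt_rough y x t hx1
  have hlast : Real.log 4 * y + 2 * Real.sqrt x * Real.log x ≤ ε / 2 * x := by
    refine le_trans ?_ b4
    have : 0 ≤ Real.log 4 := Real.log_nonneg (by norm_num)
    gcongr
  calc ‖Sg (fun n => (Λ n : ℂ) * nit n t) x‖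
      = ‖(Sg (fun n => (Λ n : ℂ) * nit n t) x - Sv y t x) + Sv y t x‖ := by
        congr 1
        ring
    _ ≤ ‖Sg (fun n => (Λ n : ℂ) * nit n t) x - Sv y t x‖ + ‖Sv y t x‖ := norm_add_le _ _
    _ ≤ ε / 2 * x + 3 * ε / 8 * x := add_le_add (hro.trans hlast) hSv
    _ ≤ ε * x := by
        have h1 := mul_pos hε hxpos
        have h2 : ε / 2 * x + 3 * ε / 8 * x = 7 / 8 * (ε * x) := by ring
        rw [h2]
        linarith only [h1]

end Pool.Agent.Helper99.AA
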