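import Pool.Agent.Helper7.MR.VDC
import Pool.Agent.Helper70.MR.KL
import Pool.Agent.Helper89.MR.WV
import Pool.Agent.Helper45.MR.DL
import Pool.Agent.Helper44.MR.HM2
import Pool.Agent.Helper57.MR.SM
import Pool.Agent.Helper51.MR.DUAL
import Pool.Agent.Helper18.MR.SEL
import Pool.Agent.Helper18.MR.BT
import Pool.Agent.Helper78.MR.MV
import Pool.Agent.Helper10.AA.AV
import Pool.Agent.Helper10.AA.FIN
import Pool.Agent.Helper10.AA.HS
import Pool.Agent.Helper12.AA.LL
import Pool.Agent.Helper12.AA.LU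
import Pool.Agent.Helper12.AA.PS
import Pool.Agent.Helper19.AA.LR
import Pool.Agent.Helper19.AA.RS
import Pool.Agent.Helper2.AA.BU
import Pool.Agent.Helper29.AA.BN
import Pool.Agent.Helper51.AA.MI
import Pool.Agent.Helper51.AA.PLD
import Pool.Agent.Helper51.AA.SI
import Pool.Agent.Helper51.AA.V3
import Pool.Agent.Helper51.AA.VM
import Pool.Agent.Helper58.AA.TA
import Pool.Agent.Helper59.AA.BB
import Pool.Agent.Helper59.AA.LE
import Pool.Agent.Helper8.AA.FA
import Pool.Agent.Helper8.AA.V2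
import Pool.Agent.Helper80.AA.LO
import Pool.Agent.Helper80.AA.PI
import Pool.Agent.Helper80.AA.PP
import Pool.Agent.Helper91.AA.TB
import Pool.Agent.Helper91.AA.VA
import Pool.Agent.Helper28.AA.Z
import Pool.Agent.Helper68.AA.V1
import Pool.Agent.Helper80.AA.PN
import Pool.Agent.Helper99.AA.FL
import Pool.Agent.Helper99.AA.MS
import Pool.Agent.Helper99.AA.PT

set_option autoImplicit false

/-! Project AA: assembly. -/

namespace Pool.Agent.Helper99.AA

open Pool.Agent.Helper40.MR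
open Pool.Agent.Helper10.AA Pool.Agent.Helper12.AA Pool.Agent.Helper29.AA Pool.Agent.Helper51.AA
open Pool.Agent.Helper58.AA Pool.Agent.Helper59.AA Pool.Agent.Helper8.AA Pool.Agent.Helper80.AA
open Pool.Agent.Helper91.AA Pool.Agent.Helper28.AA Pool.Agent.Helper68.AA

theorem all_HM2 : Pool.Agent.Helper40.MR.ST_HM2 :=
  Pool.Agent.Helper40.MR.st_HM2 (Pool.Agent.Helper40.MR.st_SM
    (Pool.Agent.Helper40.MR.st_VDC st_KL st_WV st_DL)) st_DUAL Pool.Agent.Helper40.MR.st_SEL

theorem all_BT : Pool.Agent.Helper40.MR.ST_BT :=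
  Pool.Agent.Helper40.MR.st_BT Pool.Agent.Helper40.MR.st_SEL

theorem all_RS : ST_RS := st_RS Pool.Agent.Helper40.MR.st_SEL

theorem all_FL : ST_FL := st_FL st_Z all_RS st_VM st_MI st_BB st_LE

theorem all_PS : ST_PS := st_PS all_FL st_VM

theorem all_LL : ST_LL := st_LL (st_LU all_PS) (st_LR all_RS)

theorem all_MS : ST_MS := st_MS all_PS all_LL st_TA

theorem all_HS : ST_HS := st_HS st_SI all_PS all_RS

/-- `|∑_{n ≤ x} Λ(n) n^(-i t)| ≤ ε x` for `T(A, ε) ≤ |t| ≤ x^A` and large `x`. -/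
theorem all_PT : ST_PT := st_PT all_MS all_HS (st_AV all_BT)

theorem all_PP : ST_PP := st_PP all_PT

/-- The prime number theorem. -/
theorem all_PN : ST_PN := st_PN st_TB all_BT

theorem all_PI : ST_PI := st_PI all_PN

theorem all_V1 : ST_V1 := st_V1 all_PP st_FA Pool.Agent.Helper40.MR.st_MV all_HM2

theorem all_VA : ST_VA := st_VA all_V1 (st_V2 st_FA all_HM2) (st_V3 Pool.Agent.Helper40.MR.st_MV)

theorem all_BU : ST_BU := st_BU (st_LO all_PI) st_PLD all_VA

theorem all_BN : ST_BN := st_BN all_BU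

theorem all_FIN : ST_FIN := st_FIN all_BN

end Pool.Agent.Helper99.AA
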